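import Pool.Agent.Helper61.GL.Dec

/-!
# Local entropies

`Hh w f` is the entropy of `f` for the weights `w`; bounds with an exceptional set, disintegration
of `CH`.
-/

set_option autoImplicit false

namespace Pool.Agent.Helper46.WF

open Finset Pool.Agent.Helper69.RK Pool.Agent.Helper61.GL

variable {Ω α γ : Type} [Fintype Ω]

/-- entropy of `f` in bits -/
noncomputable def Hh (w : Ω → ℝ) (f : Ω → α) : ℝ := CH w f (fun _ => ())

theorem pr_unit (w : Ω → ℝ) (ω : Ω) : pr w (fun _ => ()) ω = ∑ ω', w ω' := by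
  classical
  rw [e1_pr_eq]
  simp

theorem Hh_eq (w : Ω → ℝ) (hm : ∑ ω, w ω = 1) (f : Ω → α) :
    Hh w f = - ∑ ω, w ω * Real.logb 2 (pr w f ω) := by
  unfold Hh CH
  rw [← Finset.sum_neg_distrib]
  refine Finset.sum_congr rfl fun ω _ => ?_
  rw [pr_unit, hm, Real.logb_one]
  have h : pr w (fun ω' => (f ω', ())) ω = pr w f ω :=
    e1_pr_congr w _ _ ω (fun ω' _ => by simp)
  rw [h]
  ring

theorem Hh_nonneg (w : Ω → ℝ) (hw : ∀ ω, 0 ≤ w ω) (f : Ω → α) : 0 ≤ Hh w f :=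
  e1_nonneg w f _ hw

open Classical in
/-- probability of an event -/
noncomputable def Pw (w : Ω → ℝ) (A : Ω → Prop) : ℝ := ∑ ω, if A ω then w ω else 0

theorem Pw_nonneg (w : Ω → ℝ) (hw : ∀ ω, 0 ≤ w ω) (A : Ω → Prop) : 0 ≤ Pw w A := by
  classical
  unfold Pw
  refine Finset.sum_nonneg fun ω _ => ?_
  split_ifs
  · exact hw ω
  · exact le_rfl

theorem Pw_mono (w : Ω → ℝ) (hw : ∀ ω, 0 ≤ w ω) {A B : Ω → Prop}
    (h : ∀ ω, w ω ≠ 0 → A ω → B ω) : Pw w A ≤ Pw w B := by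
  classical
  unfold Pw
  refine Finset.sum_le_sum fun ω _ => ?_
  by_cases h0 : w ω = 0
  · simp [h0]
  by_cases h1 : A ω
  · rw [if_pos h1, if_pos (h ω h0 h1)]
  · rw [if_neg h1]
    split_ifs
    · exact hw ω
    · exact le_rfl

theorem Pw_or (w : Ω → ℝ) (hw : ∀ ω, 0 ≤ w ω) (A B : Ω → Prop) :
    Pw w (fun ω => A ω ∨ B ω) ≤ Pw w A + Pw w B := by
  classical
  unfold Pw
  rw [← Finset.sum_add_distrib]
  refine Finset.sum_le_sum fun ω _ => ?_
  have := hw ω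
  by_cases h1 : A ω <;> by_cases h2 : B ω <;> simp [h1, h2, this]

theorem Pw_compl (w : Ω → ℝ) (hm : ∑ ω, w ω = 1) (A : Ω → Prop) :
    Pw w (fun ω => ¬ A ω) = 1 - Pw w A := by
  classical
  have : Pw w (fun ω => ¬ A ω) + Pw w A = ∑ ω, w ω := by
    unfold Pw
    rw [← Finset.sum_add_distrib]
    refine Finset.sum_congr rfl fun ω _ => ?_
    by_cases h1 : A ω <;> simp [h1]
  rw [hm] at this
  linarith

theorem Pw_le_one (w : Ω → ℝ) (hw : ∀ ω, 0 ≤ w ω) (hm : ∑ ω, w ω = 1) (A : Ω → Prop) :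
    Pw w A ≤ 1 := by
  have h1 := Pw_compl w hm A
  have h2 := Pw_nonneg w hw (fun ω => ¬ A ω)
  linarith

/-- a set of positive probability is not empty -/
theorem Pw_exists (w : Ω → ℝ) {A : Ω → Prop} (h : 0 < Pw w A) : ∃ ω, w ω ≠ 0 ∧ A ω := by
  classical
  by_contra hc
  push Not at hc
  have : Pw w A = 0 := by
    unfold Pw
    refine Finset.sum_eq_zero fun ω _ => ?_
    by_cases h1 : A ω
    · by_cases h2 : w ω = 0
      · simp [h2]
      · exact absurd h1 (hc ω h2)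
    · rw [if_neg h1]
  linarith

/-- Markov -/
theorem Pw_markov (w : Ω → ℝ) (hw : ∀ ω, 0 ≤ w ω) (F : Ω → ℝ) (hF : ∀ ω, w ω ≠ 0 → 0 ≤ F ω)
    {t m : ℝ} (ht : 0 < t) (hm : ∑ ω, w ω * F ω ≤ m) : Pw w (fun ω => t < F ω) ≤ m / t := by
  classical
  rw [le_div_iff₀ ht]
  refine le_trans ?_ hm
  unfold Pw
  rw [Finset.sum_mul]
  refine Finset.sum_le_sum fun ω _ => ?_
  by_cases h0 : w ω = 0
  · simp [h0]
  by_cases h1 : t < F ω
  · rw [if_pos h1]
    exact mul_le_mul_of_nonneg_left h1.le (hw ω)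
  · rw [if_neg h1, zero_mul]
    exact mul_nonneg (hw ω) (hF ω h0)

theorem sum_div_pr_le (w : Ω → ℝ) (hw : ∀ ω, 0 ≤ w ω) (f : Ω → α) [DecidableEq α] (S : Finset α)
    (r : α → ℝ) (hr : ∀ c, 0 ≤ r c) (hS : ∀ ω, w ω ≠ 0 → f ω ∈ S) :
    ∑ ω, w ω * (r (f ω) / pr w f ω) ≤ ∑ c ∈ S, r c := by
  classical
  have h1 : ∀ ω, w ω * (r (f ω) / pr w f ω) =
      ∑ c ∈ S, (if f ω = c then w ω * (r c / pr w f ω) else 0) := by
    intro ω
    by_cases h0 : w ω = 0
    · simp [h0]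
    · rw [Finset.sum_ite_eq S (f ω) (fun c => w ω * (r c / pr w f ω)), if_pos (hS ω h0)]
  simp only [h1]
  rw [Finset.sum_comm]
  refine Finset.sum_le_sum fun c _ => ?_
  have h2 : ∑ ω, (if f ω = c then w ω * (r c / pr w f ω) else 0)
      = r c * ∑ ω ∈ univ.filter (fun ω => f ω = c), w ω / pr w f ω := by
    rw [← Finset.sum_filter, Finset.mul_sum]
    refine Finset.sum_congr rfl fun ω _ => ?_
    ring
  rw [h2]
  have h3 := e1_sum_div_le w f hw (univ.filter (fun ω => f ω = c)) (by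
    intro ω h ω' h'
    rw [(Finset.mem_filter.1 h).2, (Finset.mem_filter.1 h').2])
  calc r c * _ ≤ r c * 1 := mul_le_mul_of_nonneg_left h3 (hr c)
    _ = r c := mul_one _

/-- Gibbs' inequality for the entropy -/
theorem Hh_le (w : Ω → ℝ) (hw : ∀ ω, 0 ≤ w ω) (hm : ∑ ω, w ω = 1) (f : Ω → α) (S : Finset α)
    (r : α → ℝ) (hr : ∀ c, 0 ≤ r c) (hr' : ∀ ω, w ω ≠ 0 → 0 < r (f ω)) (hr1 : ∑ c ∈ S, r c ≤ 1)
    (hS : ∀ ω, w ω ≠ 0 → f ω ∈ S) : Hh w f ≤ - ∑ ω, w ω * Real.logb 2 (r (f ω)) := by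
  classical
  rw [Hh_eq w hm]
  have h1 := e1_gibbs w (fun ω => r (f ω) / pr w f ω) hw
    (fun ω h => div_pos (hr' ω h) (e1_pr_pos w f hw ω h))
    ((sum_div_pr_le w hw f S r hr hS).trans (by rw [hm]; exact hr1))
  have h2 : ∑ ω, w ω * Real.logb 2 (r (f ω) / pr w f ω) =
      ∑ ω, w ω * Real.logb 2 (r (f ω)) - ∑ ω, w ω * Real.logb 2 (pr w f ω) := by
    rw [← Finset.sum_sub_distrib]
    refine Finset.sum_congr rfl fun ω _ => ?_
    by_cases h0 : w ω = 0
    · simp [h0]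
    · rw [Real.logb_div (hr' ω h0).ne' (e1_pr_pos w f hw ω h0).ne']
      ring
  rw [h2] at h1
  linarith

/-- **entropy with an exceptional set** -/
theorem Hh_exc (w : Ω → ℝ) (hw : ∀ ω, 0 ≤ w ω) (hm : ∑ ω, w ω = 1) (f : Ω → α) (A : Ω → Prop)
    (S1 S2 : Finset α) {N1 N2 δ : ℝ} (hN1 : 1 ≤ N1) (hN2 : 1 ≤ N2)
    (hS1 : ∀ ω, w ω ≠ 0 → A ω → f ω ∈ S1) (h1 : (S1.card : ℝ) ≤ N1)
    (hS2 : ∀ ω, w ω ≠ 0 → f ω ∈ S2) (h2 : (S2.card : ℝ) ≤ N2) (hδ : Pw w (fun ω => ¬ A ω) ≤ δ) :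
    Hh w f ≤ 1 + Real.logb 2 N1 + δ * Real.logb 2 N2 := by
  classical
  set r : α → ℝ := fun c => (if c ∈ S1 then 1 / (2 * N1) else 0) +
    (if c ∈ S2 then 1 / (2 * N2) else 0) with hr
  have p1 : 0 < 1 / (2 * N1) := by positivity
  have p2 : 0 < 1 / (2 * N2) := by positivity
  have hr0 : ∀ c, 0 ≤ r c := by
    intro c
    rw [hr]
    simp only
    split_ifs <;> positivity
  have hrA : ∀ ω, w ω ≠ 0 → A ω → 1 / (2 * N1) ≤ r (f ω) := by
    intro ω h0 hA
    rw [hr]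
    simp only [if_pos (hS1 ω h0 hA)]
    split_ifs <;> linarith
  have hrB : ∀ ω, w ω ≠ 0 → 1 / (2 * N2) ≤ r (f ω) := by
    intro ω h0
    rw [hr]
    simp only [if_pos (hS2 ω h0)]
    split_ifs <;> linarith
  have hsum : ∑ c ∈ S1 ∪ S2, r c ≤ 1 := by
    rw [hr]
    simp only
    rw [Finset.sum_add_distrib]
    have e1 : ∑ c ∈ S1 ∪ S2, (if c ∈ S1 then 1 / (2 * N1) else 0) = S1.card * (1 / (2 * N1)) := by
      rw [← Finset.sum_filter, Finset.sum_const, nsmul_eq_mul]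
      congr 2
      congr 1
      ext c
      simp only [Finset.mem_filter, Finset.mem_union]
      tauto
    have e2 : ∑ c ∈ S1 ∪ S2, (if c ∈ S2 then 1 / (2 * N2) else 0) = S2.card * (1 / (2 * N2)) := by
      rw [← Finset.sum_filter, Finset.sum_const, nsmul_eq_mul]
      congr 2
      congr 1
      ext c
      simp only [Finset.mem_filter, Finset.mem_union]
      tauto
    rw [e1, e2]
    have e3 : (S1.card : ℝ) * (1 / (2 * N1)) ≤ 1 / 2 := by
      rw [mul_one_div, div_le_div_iff₀ (by positivity) (by norm_num)]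
      linarith
    have e4 : (S2.card : ℝ) * (1 / (2 * N2)) ≤ 1 / 2 := by
      rw [mul_one_div, div_le_div_iff₀ (by positivity) (by norm_num)]
      linarith
    linarith
  refine (Hh_le w hw hm f (S1 ∪ S2) r hr0 (fun ω h0 => lt_of_lt_of_le p2 (hrB ω h0)) hsum
    (fun ω h0 => Finset.mem_union_right _ (hS2 ω h0))).trans ?_
  rw [← Finset.sum_neg_distrib]
  have l1 : Real.logb 2 (1 / (2 * N1)) = - (1 + Real.logb 2 N1) := by
    rw [one_div, Real.logb_inv, Real.logb_mul (by norm_num) (by positivity)]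
    rw [Real.logb_self_eq_one (by norm_num)]
  have l2 : Real.logb 2 (1 / (2 * N2)) = - (1 + Real.logb 2 N2) := by
    rw [one_div, Real.logb_inv, Real.logb_mul (by norm_num) (by positivity)]
    rw [Real.logb_self_eq_one (by norm_num)]
  have g1 : 0 ≤ Real.logb 2 N1 := Real.logb_nonneg (by norm_num) hN1
  have g2 : 0 ≤ Real.logb 2 N2 := Real.logb_nonneg (by norm_num) hN2
  calc ∑ ω, - (w ω * Real.logb 2 (r (f ω)))
      ≤ ∑ ω, (w ω * (1 + Real.logb 2 N1) + (if ¬ A ω then w ω else 0) * Real.logb 2 N2) := by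
        refine Finset.sum_le_sum fun ω _ => ?_
        by_cases h0 : w ω = 0
        · simp [h0]
        by_cases hA : A ω
        · have h3 : Real.logb 2 (1 / (2 * N1)) ≤ Real.logb 2 (r (f ω)) :=
            Real.logb_le_logb_of_le (by norm_num) p1 (hrA ω h0 hA)
          rw [l1] at h3
          rw [if_neg (not_not.2 hA), zero_mul, add_zero, ← mul_neg]
          exact mul_le_mul_of_nonneg_left (by linarith) (hw ω)
        · have h3 : Real.logb 2 (1 / (2 * N2)) ≤ Real.logb 2 (r (f ω)) :=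
            Real.logb_le_logb_of_le (by norm_num) p2 (hrB ω h0)
          rw [l2] at h3
          rw [if_pos hA, ← mul_neg, ← mul_add]
          refine mul_le_mul_of_nonneg_left ?_ (hw ω)
          linarith
    _ = (∑ ω, w ω) * (1 + Real.logb 2 N1) + Pw w (fun ω => ¬ A ω) * Real.logb 2 N2 := by
        unfold Pw
        rw [Finset.sum_add_distrib, Finset.sum_mul, Finset.sum_mul]
        congr 1
        refine Finset.sum_congr rfl fun ω _ => ?_
        by_cases hA : A ω <;> simp [hA]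
    _ ≤ 1 + Real.logb 2 N1 + δ * Real.logb 2 N2 := by
        rw [hm, one_mul]
        have := mul_le_mul_of_nonneg_right hδ g2
        linarith

/-- **disintegration** -/
theorem CH_disint (μ : Ω → ℝ) (hμ : ∀ ω, 0 ≤ μ ω) (f : Ω → α) (G : Ω → γ) :
    CH μ f G = ∑ ω, μ ω * Hh (cw μ G ω) f := by
  classical
  -- the local entropy
  have h1 : ∀ ω, μ ω ≠ 0 → Hh (cw μ G ω) f = ∑ ω', cw μ G ω ω' *
      (Real.logb 2 (pr μ G ω') - Real.logb 2 (pr μ (fun ω' => (f ω', G ω')) ω')) := by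
    intro ω h0
    rw [Hh_eq _ (cw_sum μ G hμ ω h0), ← Finset.sum_neg_distrib]
    refine Finset.sum_congr rfl fun ω' _ => ?_
    by_cases hc : cw μ G ω ω' = 0
    · simp [hc]
    obtain ⟨hG, h0'⟩ := cw_ne_zero μ G hc
    have e1 : pr (cw μ G ω) f ω' = pr μ (fun ω' => (f ω', G ω')) ω' / pr μ G ω := by
      rw [e1_pr_eq, e1_pr_eq, Finset.sum_div]
      refine Finset.sum_congr rfl fun ω2 _ => ?_
      unfold cw
      by_cases k1 : f ω2 = f ω' <;> by_cases k2 : G ω2 = G ω <;> simp [k1, k2, hG]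
    rw [e1, Real.logb_div (e1_pr_pos μ _ hμ ω' h0').ne' (e1_pr_pos μ G hμ ω h0).ne',
      e1_pr_atom μ G ω' ω hG]
    ring
  have h2 : ∑ ω, μ ω * Hh (cw μ G ω) f = ∑ ω, ∑ ω', μ ω * (cw μ G ω ω' *
      (Real.logb 2 (pr μ G ω') - Real.logb 2 (pr μ (fun ω' => (f ω', G ω')) ω'))) := by
    refine Finset.sum_congr rfl fun ω _ => ?_
    by_cases h0 : μ ω = 0
    · simp [h0]
    · rw [h1 ω h0, Finset.mul_sum]
  rw [h2, Finset.sum_comm]
  unfold CH
  refine Finset.sum_congr rfl fun ω' _ => ?_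
  by_cases h0 : μ ω' = 0
  · rw [h0, zero_mul]
    symm
    refine Finset.sum_eq_zero fun ω _ => ?_
    have : cw μ G ω ω' = 0 := by
      unfold cw
      rw [h0]
      simp
    rw [this]
    ring
  have h3 : ∀ ω, μ ω * (cw μ G ω ω' * (Real.logb 2 (pr μ G ω') -
      Real.logb 2 (pr μ (fun ω' => (f ω', G ω')) ω'))) =
      (μ ω' / pr μ G ω' * (Real.logb 2 (pr μ G ω') -
        Real.logb 2 (pr μ (fun ω' => (f ω', G ω')) ω'))) * (if G ω = G ω' then μ ω else 0) := by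
    intro ω
    unfold cw
    by_cases k : G ω' = G ω
    · rw [if_pos k, if_pos k.symm, e1_pr_atom μ G ω ω' k.symm]
      ring
    · rw [if_neg k, if_neg (fun h => k h.symm)]
      ring
  simp only [h3]
  rw [← Finset.mul_sum, ← e1_pr_eq]
  have h4 := e1_pr_pos μ G hμ ω' h0
  field_simp

/-- expectations -/
theorem cw_expect (μ : Ω → ℝ) (hμ : ∀ ω, 0 ≤ μ ω) (G : Ω → γ) (F : Ω → ℝ) :
    ∑ ω, μ ω * ∑ ω', cw μ G ω ω' * F ω' = ∑ ω, μ ω * F ω := by
  classical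
  simp only [Finset.mul_sum]
  rw [Finset.sum_comm]
  refine Finset.sum_congr rfl fun ω' _ => ?_
  by_cases h0 : μ ω' = 0
  · rw [h0, zero_mul]
    refine Finset.sum_eq_zero fun ω _ => ?_
    have : cw μ G ω ω' = 0 := by
      unfold cw
      rw [h0]
      simp
    rw [this]
    ring
  have h3 : ∀ ω, μ ω * (cw μ G ω ω' * F ω') =
      (μ ω' / pr μ G ω' * F ω') * (if G ω = G ω' then μ ω else 0) := by
    intro ω
    unfold cw
    by_cases k : G ω' = G ω
    · rw [if_pos k, if_pos k.symm, e1_pr_atom μ G ω ω' k.symm]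
      ring
    · rw [if_neg k, if_neg (fun h => k h.symm)]
      ring
  simp only [h3]
  rw [← Finset.mul_sum, ← e1_pr_eq]
  have h4 := e1_pr_pos μ G hμ ω' h0
  field_simp

end Pool.Agent.Helper46.WF
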