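import Mathlib

/-!
# Integer points in a parallelogram

The number of integer points `k` with `|om k W1 - c1| ≤ L1` and `|om k W2 - c2| ≤ L2` is at most
`4 (L1 + |W1|) (L2 + |W2|) / |om W1 W2|`, where `|W|` is the sum of the absolute values.
-/

set_option autoImplicit false

namespace Pool.Agent.Helper46.WF

open Finset MeasureTheory

/-- the determinant -/
def om (p q : Fin 2 → ℝ) : ℝ := p 0 * q 1 - p 1 * q 0

/-- sum norm -/
def n1 (p : Fin 2 → ℝ) : ℝ := |p 0| + |p 1|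

theorem n1_nonneg (p : Fin 2 → ℝ) : 0 ≤ n1 p := by unfold n1; positivity

theorem om_add (p p' q : Fin 2 → ℝ) : om (p + p') q = om p q + om p' q := by
  simp only [om, Pi.add_apply]; ring

theorem om_sub (p p' q : Fin 2 → ℝ) : om (p - p') q = om p q - om p' q := by
  simp only [om, Pi.sub_apply]; ring

theorem om_smul (c : ℝ) (p q : Fin 2 → ℝ) : om (c • p) q = c * om p q := by
  simp only [om, Pi.smul_apply, smul_eq_mul]; ring

theorem om_swap (p q : Fin 2 → ℝ) : om p q = - om q p := by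
  simp only [om]; ring

/-- the unit square -/
theorem om_sq {θ W : Fin 2 → ℝ} (h : ∀ i, 0 ≤ θ i ∧ θ i ≤ 1) : |om θ W| ≤ n1 W := by
  unfold om n1
  have h0 := h 0
  have h1 := h 1
  calc |θ 0 * W 1 - θ 1 * W 0| ≤ |θ 0 * W 1| + |θ 1 * W 0| := abs_sub _ _
    _ = |θ 0| * |W 1| + |θ 1| * |W 0| := by rw [abs_mul, abs_mul]
    _ ≤ 1 * |W 1| + 1 * |W 0| := by
        rw [abs_of_nonneg h0.1, abs_of_nonneg h1.1]
        exact add_le_add (mul_le_mul_of_nonneg_right h0.2 (abs_nonneg _))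
          (mul_le_mul_of_nonneg_right h1.2 (abs_nonneg _))
    _ = |W 0| + |W 1| := by ring

/-- the real vector of an integer vector -/
def iv (k : Fin 2 → ℤ) : Fin 2 → ℝ := fun i => (k i : ℝ)

/-- unit square with the corner `k` -/
def Qk (k : Fin 2 → ℤ) : Set (Fin 2 → ℝ) := Set.pi Set.univ (fun i => Set.Ico (k i : ℝ) (k i + 1))

theorem Qk_vol (k : Fin 2 → ℤ) : volume (Qk k) = 1 := by
  unfold Qk
  rw [Real.volume_pi_Ico]
  simp

theorem Qk_meas (k : Fin 2 → ℤ) : MeasurableSet (Qk k) :=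
  MeasurableSet.pi Set.countable_univ fun _ _ => measurableSet_Ico

theorem Qk_disj {k k' : Fin 2 → ℤ} (h : k ≠ k') : Disjoint (Qk k) (Qk k') := by
  rw [Set.disjoint_left]
  intro z hz hz'
  apply h
  funext i
  have h1 := hz i (Set.mem_univ i)
  have h2 := hz' i (Set.mem_univ i)
  have e1 : ⌊z i⌋ = k i := Int.floor_eq_iff.2 ⟨h1.1, h1.2⟩
  have e2 : ⌊z i⌋ = k' i := Int.floor_eq_iff.2 ⟨h2.1, h2.2⟩
  rw [← e1, e2]

theorem Qk_om {k : Fin 2 → ℤ} {z W : Fin 2 → ℝ} (hz : z ∈ Qk k) : |om z W - om (iv k) W| ≤ n1 W := by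
  rw [← om_sub]
  apply om_sq
  intro i
  have h1 := hz i (Set.mem_univ i)
  simp only [Pi.sub_apply, iv]
  constructor
  · linarith [h1.1]
  · linarith [h1.2]

theorem count_par (W1 W2 : Fin 2 → ℝ) (hD : om W1 W2 ≠ 0) (c1 c2 L1 L2 : ℝ) (hL1 : 0 ≤ L1)
    (hL2 : 0 ≤ L2) (S : Finset (Fin 2 → ℤ))
    (hS : ∀ k ∈ S, |om (iv k) W1 - c1| ≤ L1 ∧ |om (iv k) W2 - c2| ≤ L2) :
    (S.card : ℝ) ≤ 4 * (L1 + n1 W1) * (L2 + n1 W2) / |om W1 W2| := by
  classical
  have hn1 := n1_nonneg W1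
  have hn2 := n1_nonneg W2
  let A : Matrix (Fin 2) (Fin 2) ℝ := !![W1 1, -(W1 0); W2 1, -(W2 0)]
  have hdet : LinearMap.det (Matrix.toLin' A) = om W1 W2 := by
    rw [LinearMap.det_toLin', Matrix.det_fin_two]
    simp [A, om]
    ring
  have hA0 : ∀ z : Fin 2 → ℝ, Matrix.toLin' A z 0 = om z W1 := by
    intro z
    simp [Matrix.toLin'_apply, A, Matrix.mulVec, dotProduct, Fin.sum_univ_two, om]
    ring
  have hA1 : ∀ z : Fin 2 → ℝ, Matrix.toLin' A z 1 = om z W2 := by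
    intro z
    simp [Matrix.toLin'_apply, A, Matrix.mulVec, dotProduct, Fin.sum_univ_two, om]
    ring
  set a : Fin 2 → ℝ := ![c1 - (L1 + n1 W1), c2 - (L2 + n1 W2)] with ha
  set b : Fin 2 → ℝ := ![c1 + (L1 + n1 W1), c2 + (L2 + n1 W2)] with hb
  have hsub : (⋃ k ∈ S, Qk k) ⊆ (Matrix.toLin' A) ⁻¹' (Set.Icc a b) := by
    intro z hz
    simp only [Set.mem_iUnion] at hz
    obtain ⟨k, hk, hz⟩ := hz
    have h1 := hS k hk
    have h2 := Qk_om (W := W1) hz
    have h3 := Qk_om (W := W2) hz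
    rw [abs_le] at h1 h2 h3
    rw [abs_le] at h1
    rw [Set.mem_preimage, Set.mem_Icc]
    constructor
    · intro i
      fin_cases i
      · show a 0 ≤ Matrix.toLin' A z 0
        rw [hA0, ha]
        simp only [Matrix.cons_val_zero]
        linarith [h1.1.1, h2.1]
      · show a 1 ≤ Matrix.toLin' A z 1
        rw [hA1, ha]
        simp only [Matrix.cons_val_one, Matrix.cons_val_fin_one]
        linarith [h1.2.1, h3.1]
    · intro i
      fin_cases i
      · show Matrix.toLin' A z 0 ≤ b 0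
        rw [hA0, hb]
        simp only [Matrix.cons_val_zero]
        linarith [h1.1.2, h2.2]
      · show Matrix.toLin' A z 1 ≤ b 1
        rw [hA1, hb]
        simp only [Matrix.cons_val_one, Matrix.cons_val_fin_one]
        linarith [h1.2.2, h3.2]
  have hvol := measure_mono (μ := volume) hsub
  rw [measure_biUnion_finset (fun k _ k' _ h => Qk_disj h) (fun k _ => Qk_meas k)] at hvol
  simp only [Qk_vol, Finset.sum_const, nsmul_eq_mul, mul_one] at hvol
  rw [Measure.addHaar_preimage_linearMap (μ := volume) (by rw [hdet]; exact hD), hdet,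
    Real.volume_Icc_pi, Fin.prod_univ_two] at hvol
  have e0 : b 0 - a 0 = 2 * (L1 + n1 W1) := by
    rw [ha, hb]
    simp only [Matrix.cons_val_zero]
    ring
  have e1 : b 1 - a 1 = 2 * (L2 + n1 W2) := by
    rw [ha, hb]
    simp only [Matrix.cons_val_one, Matrix.cons_val_fin_one]
    ring
  rw [e0, e1, ← ENNReal.ofReal_mul (by positivity), ← ENNReal.ofReal_mul (by positivity)] at hvol
  have h5 : (S.card : ℝ) ≤ |(om W1 W2)⁻¹| * (2 * (L1 + n1 W1) * (2 * (L2 + n1 W2))) := by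
    have h6 : ENNReal.ofReal (S.card : ℝ) ≤
        ENNReal.ofReal (|(om W1 W2)⁻¹| * (2 * (L1 + n1 W1) * (2 * (L2 + n1 W2)))) := by
      rw [ENNReal.ofReal_natCast]
      exact hvol
    exact (ENNReal.ofReal_le_ofReal_iff (by positivity)).1 h6
  rw [abs_inv] at h5
  refine h5.trans (le_of_eq ?_)
  field_simp
  ring

end Pool.Agent.Helper46.WF
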