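import Pool.Agent.Helper46.WF.Ent
import Pool.Agent.Helper46.WF.Cnt

/-!
# The strip lemma

Two random vectors `V`, `Y` in the unit square. If for most pairs `(Y1, Y2)` of independent copies of `Y`
the number `om V (Y1 - Y2)` is concentrated on the scale `2^(-R)`, then the entropies of the
`R`-digit cells of `V` and `Y` have a sum which is at most `2 R + C + small * R`.
-/

set_option autoImplicit false

namespace Pool.Agent.Helper46.WF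

open Finset Pool.Agent.Helper69.RK Pool.Agent.Helper61.GL

variable {Ω Ω' : Type} [Fintype Ω] [Fintype Ω']

/-- non-atomicity of `om V U` on the scale `ρ` -/
noncomputable def na (w : Ω → ℝ) (V : Ω → Fin 2 → ℝ) (ρ : ℝ) (U : Fin 2 → ℝ) : ℝ :=
  ⨅ c : ℝ, Pw w (fun ω => ρ < |om (V ω) U - c|)

theorem exists_min_of_range {g : ℝ → ℝ} (h : (Set.range g).Finite) : ∃ c, ∀ c', g c ≤ g c' := by
  obtain ⟨y, ⟨c, rfl⟩, hy⟩ := Set.exists_min_image (Set.range g) id h ⟨g 0, 0, rfl⟩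
  exact ⟨c, fun c' => hy (g c') ⟨c', rfl⟩⟩

theorem na_attained (w : Ω → ℝ) (V : Ω → Fin 2 → ℝ) (ρ : ℝ) (U : Fin 2 → ℝ) :
    ∃ c, (∀ c', Pw w (fun ω => ρ < |om (V ω) U - c|) ≤ Pw w (fun ω => ρ < |om (V ω) U - c'|)) ∧
      na w V ρ U = Pw w (fun ω => ρ < |om (V ω) U - c|) := by
  have hf : (Set.range (fun c : ℝ => Pw w (fun ω => ρ < |om (V ω) U - c|))).Finite := by
    have : Set.range (fun c : ℝ => Pw w (fun ω => ρ < |om (V ω) U - c|)) ⊆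
        Set.range (fun A : Set Ω => Pw w (fun ω => ω ∈ A)) := by
      rintro _ ⟨c, rfl⟩
      exact ⟨{ω | ρ < |om (V ω) U - c|}, rfl⟩
    exact (Set.finite_range _).subset this
  obtain ⟨c, hc⟩ := exists_min_of_range hf
  refine ⟨c, hc, le_antisymm ?_ ?_⟩
  · exact ciInf_le ⟨Pw w (fun ω => ρ < |om (V ω) U - c|), by
      rintro _ ⟨c', rfl⟩
      exact hc c'⟩ c
  · exact le_ciInf hc

theorem na_le (w : Ω → ℝ) (V : Ω → Fin 2 → ℝ) (ρ : ℝ) (U : Fin 2 → ℝ) (c : ℝ) :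
    na w V ρ U ≤ Pw w (fun ω => ρ < |om (V ω) U - c|) := by
  obtain ⟨c0, h1, h2⟩ := na_attained w V ρ U
  rw [h2]
  exact h1 c

theorem na_nonneg (w : Ω → ℝ) (hw : ∀ ω, 0 ≤ w ω) (V : Ω → Fin 2 → ℝ) (ρ : ℝ) (U : Fin 2 → ℝ) :
    0 ≤ na w V ρ U := by
  obtain ⟨c0, h1, h2⟩ := na_attained w V ρ U
  rw [h2]
  exact Pw_nonneg w hw _

theorem na_le_one (w : Ω → ℝ) (hw : ∀ ω, 0 ≤ w ω) (hm : ∑ ω, w ω = 1) (V : Ω → Fin 2 → ℝ) (ρ : ℝ)
    (U : Fin 2 → ℝ) : na w V ρ U ≤ 1 := by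
  obtain ⟨c0, h1, h2⟩ := na_attained w V ρ U
  rw [h2]
  exact Pw_le_one w hw hm _

/-! ### cells -/

theorem cel_om (R : ℕ) (v W : Fin 2 → ℝ) : |om (iv (cel R v)) W - 2 ^ R * om v W| ≤ n1 W := by
  have h : om (iv (cel R v)) W - 2 ^ R * om v W
      = - om (fun i => 2 ^ R * v i - (cel R v i : ℝ)) W := by
    simp only [om, iv]
    ring
  rw [h, abs_neg]
  apply om_sq
  intro i
  constructor
  · have := Int.floor_le ((2 : ℝ) ^ R * v i)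
    show 0 ≤ 2 ^ R * v i - ((⌊(2 : ℝ) ^ R * v i⌋ : ℤ) : ℝ)
    linarith
  · have := Int.lt_floor_add_one ((2 : ℝ) ^ R * v i)
    show 2 ^ R * v i - ((⌊(2 : ℝ) ^ R * v i⌋ : ℤ) : ℝ) ≤ 1
    linarith

open Classical in
/-- cells met by a parallelogram -/
theorem cells_par (R : ℕ) (V : Ω → Fin 2 → ℝ) (A : Ω → Prop) (W1 W2 : Fin 2 → ℝ)
    (hD : om W1 W2 ≠ 0) (c1 c2 ρ1 ρ2 : ℝ) (h1 : 0 ≤ ρ1) (h2 : 0 ≤ ρ2)
    (hA : ∀ ω, A ω → |om (V ω) W1 - c1| ≤ ρ1 ∧ |om (V ω) W2 - c2| ≤ ρ2) :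
    (((univ.filter A).image (fun ω => cel R (V ω))).card : ℝ) ≤
      4 * (2 ^ R * ρ1 + 2 * n1 W1) * (2 ^ R * ρ2 + 2 * n1 W2) / |om W1 W2| := by
  have g1 := n1_nonneg W1
  have g2 := n1_nonneg W2
  have p : (0 : ℝ) < 2 ^ R := by positivity
  have h := count_par W1 W2 hD (2 ^ R * c1) (2 ^ R * c2) (2 ^ R * ρ1 + n1 W1) (2 ^ R * ρ2 + n1 W2)
    (by positivity) (by positivity) ((univ.filter A).image (fun ω => cel R (V ω))) (by
      intro k hk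
      obtain ⟨ω, hω, rfl⟩ := Finset.mem_image.1 hk
      have hA' := hA ω (Finset.mem_filter.1 hω).2
      have key : ∀ (W : Fin 2 → ℝ) (c ρ : ℝ), |om (V ω) W - c| ≤ ρ →
          |om (iv (cel R (V ω))) W - 2 ^ R * c| ≤ 2 ^ R * ρ + n1 W := by
        intro W c ρ hρ
        have e : om (iv (cel R (V ω))) W - 2 ^ R * c
            = (om (iv (cel R (V ω))) W - 2 ^ R * om (V ω) W) + 2 ^ R * (om (V ω) W - c) := by
          ring
        rw [e]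
        refine (abs_add_le _ _).trans ?_
        rw [abs_mul, abs_of_pos p]
        have := cel_om R (V ω) W
        have := mul_le_mul_of_nonneg_left hρ p.le
        linarith
      exact ⟨key W1 c1 ρ1 hA'.1, key W2 c2 ρ2 hA'.2⟩)
  refine h.trans (le_of_eq ?_)
  ring

/-- all cells in the unit square -/
noncomputable def allc (R : ℕ) : Finset (Fin 2 → ℤ) := Fintype.piFinset (fun _ => Finset.Ico (0 : ℤ) (2 ^ R))

theorem allc_card (R : ℕ) : ((allc R).card : ℝ) = 2 ^ (2 * R) := by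
  unfold allc
  rw [Fintype.card_piFinset]
  simp only [Int.card_Ico, sub_zero, Finset.prod_const, Finset.card_univ, Fintype.card_fin]
  have : ((2 : ℤ) ^ R).toNat = 2 ^ R := by
    have : ((2 : ℤ) ^ R) = ((2 ^ R : ℕ) : ℤ) := by push_cast; rfl
    rw [this, Int.toNat_natCast]
  rw [this]
  push_cast
  ring

theorem cel_mem {R : ℕ} {v : Fin 2 → ℝ} (h : ∀ i, 0 ≤ v i ∧ v i < 1) : cel R v ∈ allc R := by
  unfold allc
  rw [Fintype.mem_piFinset]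
  intro i
  rw [Finset.mem_Ico]
  have p : (0 : ℝ) < 2 ^ R := by positivity
  constructor
  · exact Int.floor_nonneg.2 (mul_nonneg p.le (h i).1)
  · show ⌊(2 : ℝ) ^ R * v i⌋ < 2 ^ R
    rw [Int.floor_lt]
    push_cast
    calc (2 : ℝ) ^ R * v i < 2 ^ R * 1 := mul_lt_mul_of_pos_left (h i).2 p
      _ = 2 ^ R := mul_one _

theorem logb_two_pow (k : ℕ) : Real.logb 2 ((2 : ℝ) ^ k) = k := by
  rw [← Real.rpow_natCast, Real.logb_rpow (by norm_num) (by norm_num)]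

/-- entropy of the cells of `V` if `V` is in a parallelogram up to the probability `δ` -/
theorem Hh_par (w : Ω → ℝ) (hw : ∀ ω, 0 ≤ w ω) (hm : ∑ ω, w ω = 1) (R : ℕ) (V : Ω → Fin 2 → ℝ)
    (hV : ∀ ω, w ω ≠ 0 → ∀ i, 0 ≤ V ω i ∧ V ω i < 1) (W1 W2 : Fin 2 → ℝ)
    (hD : om W1 W2 ≠ 0) (c1 c2 ρ1 ρ2 : ℝ) (h1 : 0 ≤ ρ1) (h2 : 0 ≤ ρ2) {N δ1 δ2 : ℝ}
    (hp1 : Pw w (fun ω => ρ1 < |om (V ω) W1 - c1|) ≤ δ1)
    (hp2 : Pw w (fun ω => ρ2 < |om (V ω) W2 - c2|) ≤ δ2) (hN1 : 1 ≤ N)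
    (hN : 4 * (2 ^ R * ρ1 + 2 * n1 W1) * (2 ^ R * ρ2 + 2 * n1 W2) / |om W1 W2| ≤ N) :
    Hh w (fun ω => cel R (V ω)) ≤ 1 + Real.logb 2 N + (δ1 + δ2) * (2 * R) := by
  classical
  obtain ⟨A, hA⟩ : ∃ A : Ω → Prop, A = fun ω => |om (V ω) W1 - c1| ≤ ρ1 ∧ |om (V ω) W2 - c2| ≤ ρ2 :=
    ⟨_, rfl⟩
  have hδ : Pw w (fun ω => ¬ A ω) ≤ δ1 + δ2 := by
    refine (Pw_mono w hw (B := fun ω => ρ1 < |om (V ω) W1 - c1| ∨ ρ2 < |om (V ω) W2 - c2|)
      ?_).trans ((Pw_or w hw _ _).trans (add_le_add hp1 hp2))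
    intro ω _ hn
    rw [hA] at hn
    simp only [not_and_or, not_le] at hn
    exact hn
  have h := Hh_exc w hw hm (fun ω => cel R (V ω)) A ((univ.filter A).image (fun ω => cel R (V ω)))
    (allc R) (N1 := N) (N2 := 2 ^ (2 * R)) (δ := δ1 + δ2) hN1 (one_le_pow₀ (by norm_num))
    (fun ω _ h => Finset.mem_image_of_mem _ (Finset.mem_filter.2 ⟨Finset.mem_univ ω, h⟩))
    ((cells_par R V A W1 W2 hD c1 c2 ρ1 ρ2 h1 h2 (fun ω h => by rw [hA] at h; exact h)).trans hN)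
    (fun ω h0 => cel_mem (hV ω h0)) (le_of_eq (allc_card R)) hδ
  rw [logb_two_pow] at h
  push_cast at h
  exact h

/-! ### the extremal pair -/

/-- output: the two vectors -/
structure Core (w : Ω → ℝ) (V : Ω → Fin 2 → ℝ) (w' : Ω' → ℝ) (Y : Ω' → Fin 2 → ℝ) (R : ℕ) (σ : ℝ)
    (W1 W2 : Fin 2 → ℝ) : Prop where
  lo : (1 : ℝ) ≤ 4 ^ R * |om W1 W2|
  hi : |om W1 W2| ≤ 2
  s1 : n1 W1 ≤ 2 * (2 ^ R * |om W1 W2|)
  s2 : n1 W2 ≤ 2 * (2 ^ R * |om W1 W2|)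
  b1 : n1 W1 ≤ 2
  b2 : n1 W2 ≤ 2
  a1 : na w V ((1 / 2) ^ R) W1 ≤ σ
  a2 : na w V ((1 / 2) ^ R) W2 ≤ σ
  mx : ∀ ω1 ω2, w' ω1 ≠ 0 → w' ω2 ≠ 0 → na w V ((1 / 2) ^ R) (Y ω1 - Y ω2) ≤ σ →
    |om (Y ω1 - Y ω2) W1| ≤ |om W1 W2| ∧ |om (Y ω1 - Y ω2) W2| ≤ |om W1 W2|

theorem core_exists (w : Ω → ℝ) (hw : ∀ ω, 0 ≤ w ω) (V : Ω → Fin 2 → ℝ)
    (hV : ∀ ω, w ω ≠ 0 → ∀ i, 0 ≤ V ω i ∧ V ω i < 1) (w' : Ω' → ℝ) (Y : Ω' → Fin 2 → ℝ)
    (hY : ∀ ω, w' ω ≠ 0 → ∀ i, 0 ≤ Y ω i ∧ Y ω i < 1) (R : ℕ) {σ : ℝ} (hσ : 0 ≤ σ) :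
    ∃ W1 W2, Core w V w' Y R σ W1 W2 := by
  classical
  have p : (0 : ℝ) < (1 / 2) ^ R := by positivity
  have p1 : ((1 : ℝ) / 2) ^ R ≤ 1 := pow_le_one₀ (by norm_num) (by norm_num)
  have pr : (2 : ℝ) ^ R * (1 / 2) ^ R = 1 := by rw [← mul_pow]; norm_num
  set p0 : Fin 2 → ℝ := ![(1 / 2) ^ R, 0] with hp0
  set q0 : Fin 2 → ℝ := ![0, (1 / 2) ^ R] with hq0
  have hp00 : p0 0 = (1 / 2) ^ R := rfl
  have hp01 : p0 1 = 0 := rfl
  have hq00 : q0 0 = 0 := rfl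
  have hq01 : q0 1 = (1 / 2) ^ R := rfl
  set 𝒢 : Finset (Fin 2 → ℝ) := ((univ : Finset (Ω' × Ω')).filter (fun q => w' q.1 ≠ 0 ∧ w' q.2 ≠ 0 ∧
    na w V ((1 / 2) ^ R) (Y q.1 - Y q.2) ≤ σ)).image (fun q => Y q.1 - Y q.2) ∪ {p0, q0} with hG
  have hpG : p0 ∈ 𝒢 := by rw [hG]; simp
  have hqG : q0 ∈ 𝒢 := by rw [hG]; simp
  -- properties of the elements
  have hna : ∀ W ∈ 𝒢, na w V ((1 / 2) ^ R) W ≤ σ := by
    intro W hW
    rw [hG, Finset.mem_union] at hW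
    rcases hW with hW | hW
    · obtain ⟨q, hq, rfl⟩ := Finset.mem_image.1 hW
      exact (Finset.mem_filter.1 hq).2.2.2
    · have hz : ∀ W : Fin 2 → ℝ, (W = p0 ∨ W = q0) → Pw w (fun ω => (1 / 2) ^ R < |om (V ω) W - 0|) = 0 := by
        intro W hW
        unfold Pw
        refine Finset.sum_eq_zero fun ω _ => ?_
        by_cases h0 : w ω = 0
        · simp [h0]
        · rw [if_neg]
          have hv0 := hV ω h0 0
          have hv1 := hV ω h0 1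
          rw [not_lt, sub_zero]
          rcases hW with rfl | rfl
          · unfold om
            rw [hp00, hp01, mul_zero, zero_sub, abs_neg, abs_mul, abs_of_nonneg hv1.1, abs_of_pos p]
            nlinarith
          · unfold om
            rw [hq00, hq01, mul_zero, sub_zero, abs_mul, abs_of_nonneg hv0.1, abs_of_pos p]
            nlinarith
      simp only [Finset.mem_insert, Finset.mem_singleton] at hW
      exact (na_le w V _ W 0).trans ((hz W hW).le.trans hσ)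
  have hbd : ∀ W ∈ 𝒢, |W 0| ≤ 1 ∧ |W 1| ≤ 1 := by
    intro W hW
    rw [hG, Finset.mem_union] at hW
    rcases hW with hW | hW
    · obtain ⟨q, hq, rfl⟩ := Finset.mem_image.1 hW
      have h1 := hY q.1 (Finset.mem_filter.1 hq).2.1
      have h2 := hY q.2 (Finset.mem_filter.1 hq).2.2.1
      constructor
      · rw [abs_le, Pi.sub_apply]
        constructor <;> linarith [(h1 0).1, (h1 0).2, (h2 0).1, (h2 0).2]
      · rw [abs_le, Pi.sub_apply]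
        constructor <;> linarith [(h1 1).1, (h1 1).2, (h2 1).1, (h2 1).2]
    · simp only [Finset.mem_insert, Finset.mem_singleton] at hW
      rcases hW with rfl | rfl
      · rw [hp00, hp01, abs_of_pos p, abs_zero]
        exact ⟨p1, by norm_num⟩
      · rw [hq00, hq01, abs_of_pos p, abs_zero]
        exact ⟨by norm_num, p1⟩
  obtain ⟨⟨W1, W2⟩, hW, hmax⟩ := Finset.exists_max_image (𝒢 ×ˢ 𝒢) (fun q => |om q.1 q.2|)
    ⟨(p0, q0), Finset.mem_product.2 ⟨hpG, hqG⟩⟩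
  obtain ⟨hW1, hW2⟩ := Finset.mem_product.1 hW
  simp only at hW1 hW2
  have hmax' : ∀ A ∈ 𝒢, ∀ B ∈ 𝒢, |om A B| ≤ |om W1 W2| :=
    fun A hA B hB => hmax (A, B) (Finset.mem_product.2 ⟨hA, hB⟩)
  have hsz : ∀ W ∈ 𝒢, n1 W ≤ 2 * (2 ^ R * |om W1 W2|) := by
    intro W hW
    have h1 := hmax' W hW p0 hpG
    have h2 := hmax' W hW q0 hqG
    unfold om at h1 h2
    rw [hp00, hp01, mul_zero, zero_sub, abs_neg, abs_mul, abs_of_pos p] at h1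
    rw [hq00, hq01, mul_zero, sub_zero, abs_mul, abs_of_pos p] at h2
    have pp : (0 : ℝ) < 2 ^ R := by positivity
    have e1 : |W 1| ≤ 2 ^ R * |om W1 W2| := by
      calc |W 1| = 2 ^ R * (|W 1| * (1 / 2) ^ R) := by
            rw [mul_comm (|W 1|), ← mul_assoc, pr, one_mul]
        _ ≤ _ := mul_le_mul_of_nonneg_left h1 pp.le
    have e2 : |W 0| ≤ 2 ^ R * |om W1 W2| := by
      calc |W 0| = 2 ^ R * (|W 0| * (1 / 2) ^ R) := by
            rw [mul_comm (|W 0|), ← mul_assoc, pr, one_mul]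
        _ ≤ _ := mul_le_mul_of_nonneg_left h2 pp.le
    unfold n1
    linarith
  have hb : ∀ W ∈ 𝒢, n1 W ≤ 2 := by
    intro W hW
    have := hbd W hW
    unfold n1
    linarith [this.1, this.2]
  refine ⟨W1, W2, ?_, ?_, hsz W1 hW1, hsz W2 hW2, hb W1 hW1, hb W2 hW2, hna W1 hW1, hna W2 hW2, ?_⟩
  · have h1 := hmax' p0 hpG q0 hqG
    have h2 : |om p0 q0| = (1 / 2) ^ R * (1 / 2) ^ R := by
      unfold om
      rw [hp00, hp01, hq00, hq01, mul_zero, sub_zero, abs_of_pos (by positivity)]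
    rw [h2] at h1
    have pp : (0 : ℝ) < 4 ^ R := by positivity
    have h3 := mul_le_mul_of_nonneg_left h1 pp.le
    have h4 : (4 : ℝ) ^ R * ((1 / 2) ^ R * (1 / 2) ^ R) = 1 := by
      rw [← mul_pow, ← mul_pow]
      norm_num
    rw [h4] at h3
    exact h3
  · have h1 := hbd W1 hW1
    have h2 := hbd W2 hW2
    unfold om
    calc |W1 0 * W2 1 - W1 1 * W2 0| ≤ |W1 0 * W2 1| + |W1 1 * W2 0| := abs_sub _ _
      _ = |W1 0| * |W2 1| + |W1 1| * |W2 0| := by rw [abs_mul, abs_mul]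
      _ ≤ 1 * 1 + 1 * 1 := by
          exact add_le_add (mul_le_mul h1.1 h2.2 (abs_nonneg _) zero_le_one)
            (mul_le_mul h1.2 h2.1 (abs_nonneg _) zero_le_one)
      _ = 2 := by norm_num
  · intro ω1 ω2 g1 g2 g3
    have hU : Y ω1 - Y ω2 ∈ 𝒢 := by
      rw [hG, Finset.mem_union]
      left
      exact Finset.mem_image.2 ⟨(ω1, ω2), Finset.mem_filter.2 ⟨Finset.mem_univ _, g1, g2, g3⟩, rfl⟩
    exact ⟨hmax' _ hU _ hW1, hmax' _ hU _ hW2⟩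

/-- entropy of `V` -/
theorem core_V (w : Ω → ℝ) (hw : ∀ ω, 0 ≤ w ω) (hm : ∑ ω, w ω = 1) (V : Ω → Fin 2 → ℝ)
    (hV : ∀ ω, w ω ≠ 0 → ∀ i, 0 ≤ V ω i ∧ V ω i < 1) (w' : Ω' → ℝ) (Y : Ω' → Fin 2 → ℝ) (R : ℕ)
    {σ : ℝ} {W1 W2 : Fin 2 → ℝ} (hC : Core w V w' Y R σ W1 W2) :
    Hh w (fun ω => cel R (V ω)) ≤ 1 + Real.logb 2 (100 / |om W1 W2|) + 4 * σ * R := by
  obtain ⟨c1, -, hc1⟩ := na_attained w V ((1 / 2) ^ R) W1
  obtain ⟨c2, -, hc2⟩ := na_attained w V ((1 / 2) ^ R) W2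
  have pr : (2 : ℝ) ^ R * (1 / 2) ^ R = 1 := by rw [← mul_pow]; norm_num
  have hD0 : 0 < |om W1 W2| := by
    by_contra h
    have h1 : |om W1 W2| = 0 := le_antisymm (not_lt.1 h) (abs_nonneg _)
    have := hC.lo
    rw [h1, mul_zero] at this
    linarith
  have g1 := n1_nonneg W1
  have g2 := n1_nonneg W2
  have h := Hh_par w hw hm R V hV W1 W2 (abs_pos.1 hD0) c1 c2 ((1 / 2) ^ R) ((1 / 2) ^ R)
    (by positivity) (by positivity) (N := 100 / |om W1 W2|) (δ1 := σ) (δ2 := σ)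
    (hc1 ▸ hC.a1) (hc2 ▸ hC.a2) (by
      rw [le_div_iff₀ hD0]
      linarith [hC.hi]) (by
      rw [pr]
      refine div_le_div_of_nonneg_right ?_ hD0.le
      have h3 := hC.b1
      have h4 := hC.b2
      nlinarith)
  refine h.trans (le_of_eq ?_)
  ring

/-- entropy of `Y` -/
theorem core_Y (w : Ω → ℝ) (V : Ω → Fin 2 → ℝ) (w' : Ω' → ℝ) (hw' : ∀ ω, 0 ≤ w' ω)
    (hm' : ∑ ω, w' ω = 1) (Y : Ω' → Fin 2 → ℝ)
    (hY : ∀ ω, w' ω ≠ 0 → ∀ i, 0 ≤ Y ω i ∧ Y ω i < 1) (R : ℕ)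
    {σ : ℝ} {W1 W2 : Fin 2 → ℝ} (hC : Core w V w' Y R σ W1 W2) (ω2 : Ω')
    (h0 : w' ω2 ≠ 0)
    (h2 : Pw w' (fun ω1 => σ < na w V ((1 / 2) ^ R) (Y ω1 - Y ω2)) ≤ σ) :
    Hh w' (fun ω => cel R (Y ω)) ≤ 1 + Real.logb 2 (100 * (4 ^ R * |om W1 W2|)) + 4 * σ * R := by
  have hD0 : 0 < |om W1 W2| := by
    by_contra h
    have h1 : |om W1 W2| = 0 := le_antisymm (not_lt.1 h) (abs_nonneg _)
    have := hC.lo
    rw [h1, mul_zero] at this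
    linarith
  have g1 := n1_nonneg W1
  have g2 := n1_nonneg W2
  have pp : (0 : ℝ) < 2 ^ R := by positivity
  have key : ∀ W : Fin 2 → ℝ, (W = W1 ∨ W = W2) →
      Pw w' (fun ω => |om W1 W2| < |om (Y ω) W - om (Y ω2) W|) ≤ σ := by
    intro W hW
    refine (Pw_mono w' hw' ?_).trans h2
    intro ω hω h3
    by_contra h4
    have h5 := hC.mx ω ω2 hω h0 (not_lt.1 h4)
    rw [← om_sub] at h3
    rcases hW with rfl | rfl
    · exact absurd h5.1 (not_le.2 h3)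
    · exact absurd h5.2 (not_le.2 h3)
  have h := Hh_par w' hw' hm' R Y hY W1 W2 (abs_pos.1 hD0) (om (Y ω2) W1) (om (Y ω2) W2)
    (|om W1 W2|) (|om W1 W2|) hD0.le hD0.le (N := 100 * (4 ^ R * |om W1 W2|)) (δ1 := σ) (δ2 := σ)
    (key W1 (Or.inl rfl)) (key W2 (Or.inr rfl)) (by linarith [hC.lo]) (by
      rw [div_le_iff₀ hD0]
      have h3 := hC.s1
      have h4 := hC.s2
      have e : (4 : ℝ) ^ R = 2 ^ R * 2 ^ R := by rw [← mul_pow]; norm_num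
      rw [e]
      have q : 0 ≤ 2 ^ R * |om W1 W2| := by positivity
      nlinarith [mul_le_mul (show 2 ^ R * |om W1 W2| + 2 * n1 W1 ≤ 5 * (2 ^ R * |om W1 W2|) by linarith)
        (show 2 ^ R * |om W1 W2| + 2 * n1 W2 ≤ 5 * (2 ^ R * |om W1 W2|) by linarith)
        (by positivity) (by positivity)])
  refine h.trans (le_of_eq ?_)
  ring

theorem logb_100 : Real.logb 2 100 ≤ 7 := by
  have h1 : Real.logb 2 100 ≤ Real.logb 2 128 :=
    Real.logb_le_logb_of_le (by norm_num) (by norm_num) (by norm_num)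
  have h2 : Real.logb 2 128 = 7 := by
    rw [show (128 : ℝ) = 2 ^ (7 : ℝ) by norm_num, Real.logb_rpow (by norm_num) (by norm_num)]
  linarith

/-- the averaged non-atomicity of a pair of laws -/
noncomputable def nas (w : Ω → ℝ) (V : Ω → Fin 2 → ℝ) (w' : Ω' → ℝ) (Y : Ω' → Fin 2 → ℝ) (R : ℕ) : ℝ :=
  ∑ ω1, w' ω1 * ∑ ω2, w' ω2 * na w V ((1 / 2) ^ R) (Y ω1 - Y ω2)

/-- Fubini and Markov: a good second point -/
theorem good_second (w : Ω → ℝ) (hw : ∀ ω, 0 ≤ w ω) (V : Ω → Fin 2 → ℝ) (w' : Ω' → ℝ)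
    (hw' : ∀ ω, 0 ≤ w' ω) (hm' : ∑ ω, w' ω = 1) (Y : Ω' → Fin 2 → ℝ) (R : ℕ) {σ : ℝ} (hσ : 0 < σ)
    (hs : nas w V w' Y R ≤ σ ^ 2) :
    ∃ ω2, w' ω2 ≠ 0 ∧ Pw w' (fun ω1 => σ < na w V ((1 / 2) ^ R) (Y ω1 - Y ω2)) ≤ σ := by
  classical
  set P : Ω' → ℝ := fun ω2 => Pw w' (fun ω1 => σ < na w V ((1 / 2) ^ R) (Y ω1 - Y ω2)) with hP
  have h1 : ∑ ω2, w' ω2 * P ω2 ≤ σ := by
    have h2 : ∀ ω2, P ω2 ≤ (∑ ω1, w' ω1 * na w V ((1 / 2) ^ R) (Y ω1 - Y ω2)) / σ := by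
      intro ω2
      exact Pw_markov w' hw' _ (fun ω1 _ => na_nonneg w hw V _ _) hσ le_rfl
    calc ∑ ω2, w' ω2 * P ω2
        ≤ ∑ ω2, w' ω2 * ((∑ ω1, w' ω1 * na w V ((1 / 2) ^ R) (Y ω1 - Y ω2)) / σ) :=
          Finset.sum_le_sum fun ω2 _ => mul_le_mul_of_nonneg_left (h2 ω2) (hw' ω2)
      _ = nas w V w' Y R / σ := by
          unfold nas
          rw [Finset.sum_div]
          simp only [Finset.mul_sum, Finset.sum_div]
          rw [Finset.sum_comm]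
          refine Finset.sum_congr rfl fun ω1 _ => Finset.sum_congr rfl fun ω2 _ => ?_
          ring
      _ ≤ σ ^ 2 / σ := div_le_div_of_nonneg_right hs hσ.le
      _ = σ := by rw [sq, mul_div_assoc, div_self hσ.ne', mul_one]
  by_contra hc
  push Not at hc
  have h3 : σ < ∑ ω2, w' ω2 * P ω2 := by
    have h4 : ∑ ω2, w' ω2 * σ < ∑ ω2, w' ω2 * P ω2 := by
      have hex : ∃ ω ∈ (univ : Finset Ω'), w' ω ≠ 0 := by
        by_contra h5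
        push Not at h5
        rw [Finset.sum_eq_zero h5] at hm'
        exact zero_ne_one hm'
      obtain ⟨ω0, h6, h7⟩ := hex
      refine Finset.sum_lt_sum (fun ω _ => ?_) ⟨ω0, h6, ?_⟩
      · by_cases h8 : w' ω = 0
        · simp [h8]
        · exact mul_le_mul_of_nonneg_left (hc ω h8).le (hw' ω)
      · exact mul_lt_mul_of_pos_left (hc ω0 h7) (lt_of_le_of_ne (hw' ω0) (Ne.symm h7))
    rw [← Finset.sum_mul, hm', one_mul] at h4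
    exact h4
  linarith

/-- **the strip lemma** -/
theorem strip (w : Ω → ℝ) (hw : ∀ ω, 0 ≤ w ω) (hm : ∑ ω, w ω = 1) (V : Ω → Fin 2 → ℝ)
    (hV : ∀ ω, w ω ≠ 0 → ∀ i, 0 ≤ V ω i ∧ V ω i < 1) (w' : Ω' → ℝ) (hw' : ∀ ω, 0 ≤ w' ω)
    (hm' : ∑ ω, w' ω = 1) (Y : Ω' → Fin 2 → ℝ)
    (hY : ∀ ω, w' ω ≠ 0 → ∀ i, 0 ≤ Y ω i ∧ Y ω i < 1) (R : ℕ) {σ : ℝ} (hσ : 0 < σ)
    (hs : nas w V w' Y R ≤ σ ^ 2) :
    Hh w (fun ω => cel R (V ω)) + Hh w' (fun ω => cel R (Y ω)) ≤ 2 * R + 16 + 8 * σ * R := by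
  obtain ⟨W1, W2, hC⟩ := core_exists w hw V hV w' Y hY R hσ.le
  obtain ⟨ω2, h0, h2⟩ := good_second w hw V w' hw' hm' Y R hσ hs
  have hD0 : 0 < |om W1 W2| := by
    by_contra h
    have h1 : |om W1 W2| = 0 := le_antisymm (not_lt.1 h) (abs_nonneg _)
    have := hC.lo
    rw [h1, mul_zero] at this
    linarith
  have h3 := core_V w hw hm V hV w' Y R hC
  have h4 := core_Y w V w' hw' hm' Y hY R hC ω2 h0 h2
  have pp : (0 : ℝ) < 4 ^ R := by positivity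
  have e1 : Real.logb 2 (100 / |om W1 W2|) = Real.logb 2 100 - Real.logb 2 |om W1 W2| :=
    Real.logb_div (by norm_num) hD0.ne'
  have e2 : Real.logb 2 (100 * (4 ^ R * |om W1 W2|)) =
      Real.logb 2 100 + (2 * R + Real.logb 2 |om W1 W2|) := by
    rw [Real.logb_mul (by norm_num) (by positivity), Real.logb_mul pp.ne' hD0.ne']
    have : (4 : ℝ) ^ R = 2 ^ (2 * R) := by rw [pow_mul]; norm_num
    rw [this, logb_two_pow]
    push_cast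
    ring
  have e3 := logb_100
  rw [e1] at h3
  rw [e2] at h4
  linarith

end Pool.Agent.Helper46.WF
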