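import Pool.Agent.Helper46.WF.StripP

/-!
# Orthonormal frames and flats

`ON f`: orthonormal family. A law near an affine flat of dimension `a` has entropy at most
`a R1 + C`; so a law with more entropy has an orthonormal frame of `g` vectors which are controlled
by its differences.
-/

set_option autoImplicit false

namespace Pool.Agent.Helper46.WF

open Finset Pool.Agent.Helper69.RK Pool.Agent.Helper61.GL

variable {Ω Ω' : Type} [Fintype Ω] [Fintype Ω'] {p a : ℕ}

/-- orthonormal family -/
def ON (f : Fin a → Fin p → ℝ) : Prop := ∀ b c, dp (f b) (f c) = if b = c then 1 else 0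

theorem dp_add_left (v v' u : Fin p → ℝ) : dp (v + v') u = dp v u + dp v' u := by
  unfold dp
  rw [← Finset.sum_add_distrib]
  exact Finset.sum_congr rfl fun i _ => by simp only [Pi.add_apply]; ring

theorem dp_smul_left (c : ℝ) (v u : Fin p → ℝ) : dp (c • v) u = c * dp v u := by
  unfold dp
  rw [Finset.mul_sum]
  exact Finset.sum_congr rfl fun i _ => by simp only [Pi.smul_apply, smul_eq_mul]; ring

theorem dp_add_right (v u u' : Fin p → ℝ) : dp v (u + u') = dp v u + dp v u' := by
  rw [dp_comm, dp_add_left, dp_comm u v, dp_comm u' v]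

theorem dp_sub_right (v u u' : Fin p → ℝ) : dp v (u - u') = dp v u - dp v u' := by
  rw [dp_comm, dp_sub_left, dp_comm u v, dp_comm u' v]

theorem dp_smul_right (c : ℝ) (v u : Fin p → ℝ) : dp v (c • u) = c * dp v u := by
  rw [dp_comm, dp_smul_left, dp_comm u v]

theorem dp_sum_left {ι : Type} (S : Finset ι) (F : ι → Fin p → ℝ) (u : Fin p → ℝ) :
    dp (∑ b ∈ S, F b) u = ∑ b ∈ S, dp (F b) u := by
  unfold dp
  rw [Finset.sum_comm]
  refine Finset.sum_congr rfl fun i _ => ?_
  rw [Finset.sum_apply, Finset.sum_mul]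

theorem dp_sum_right {ι : Type} (S : Finset ι) (F : ι → Fin p → ℝ) (v : Fin p → ℝ) :
    dp v (∑ b ∈ S, F b) = ∑ b ∈ S, dp v (F b) := by
  rw [dp_comm, dp_sum_left]
  exact Finset.sum_congr rfl fun b _ => dp_comm _ _

theorem dp_abs_le (v u : Fin p → ℝ) {s t : ℝ} (hv : ∀ i, |v i| ≤ s) (hu : ∀ i, |u i| ≤ t)
    (hs : 0 ≤ s) : |dp v u| ≤ p * (s * t) := by
  unfold dp
  refine (Finset.abs_sum_le_sum_abs _ _).trans ?_
  have : ∀ i ∈ (univ : Finset (Fin p)), |v i * u i| ≤ s * t := by
    intro i _
    rw [abs_mul]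
    exact mul_le_mul (hv i) (hu i) (abs_nonneg _) hs
  refine (Finset.sum_le_sum this).trans ?_
  rw [Finset.sum_const, Finset.card_univ, Fintype.card_fin, nsmul_eq_mul]

theorem dp_self_nonneg (v : Fin p → ℝ) : 0 ≤ dp v v :=
  Finset.sum_nonneg fun i _ => mul_self_nonneg _

theorem sq_le_dp (v : Fin p → ℝ) (i : Fin p) : v i ^ 2 ≤ dp v v := by
  unfold dp
  rw [sq]
  exact Finset.single_le_sum (f := fun i => v i * v i) (fun j _ => mul_self_nonneg _)
    (Finset.mem_univ i)

theorem abs_le_of_dp_one {v : Fin p → ℝ} (h : dp v v = 1) (i : Fin p) : |v i| ≤ 1 := by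
  rw [abs_le_one_iff_mul_self_le_one]
  have := sq_le_dp v i
  rw [h, sq] at this
  exact this

theorem ON.abs_le {f : Fin a → Fin p → ℝ} (hf : ON f) (b : Fin a) (i : Fin p) : |f b i| ≤ 1 := by
  refine abs_le_of_dp_one ?_ i
  rw [hf, if_pos rfl]

/-- an orthonormal family is a part of the rows of an orthogonal matrix -/
theorem ext_orth (f : Fin a → Fin p → ℝ) (hf : ON f) :
    ∃ (O : Matrix (Fin p) (Fin p) ℝ) (e : Fin a → Fin p), Function.Injective e ∧
      (∀ b, O (e b) = f b) ∧ ∀ i j, dp (O i) (O j) = if i = j then 1 else 0 := by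
  classical
  have hinner : ∀ x y : EuclideanSpace ℝ (Fin p), inner ℝ x y = dp (x.ofLp) (y.ofLp) := by
    intro x y
    rw [PiLp.inner_apply]
    unfold dp
    refine Finset.sum_congr rfl fun i _ => ?_
    simp [mul_comm]
  have hon : Orthonormal ℝ (fun b : Fin a => (WithLp.toLp 2 (f b) : EuclideanSpace ℝ (Fin p))) := by
    rw [orthonormal_iff_ite]
    intro b c
    rw [hinner]
    exact hf b c
  have hap : a ≤ p := by
    have h := hon.linearIndependent.fintype_card_le_finrank
    rw [Fintype.card_fin, finrank_euclideanSpace, Fintype.card_fin] at h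
    exact h
  set v : Fin p → EuclideanSpace ℝ (Fin p) := fun i =>
    if h : (i : ℕ) < a then WithLp.toLp 2 (f ⟨i, h⟩) else 0 with hv
  set s : Set (Fin p) := {i | (i : ℕ) < a} with hs
  have hvs : Orthonormal ℝ (s.restrict v) := by
    rw [orthonormal_iff_ite]
    rintro ⟨i, hi⟩ ⟨j, hj⟩
    have hi' : (i : ℕ) < a := hi
    have hj' : (j : ℕ) < a := hj
    show inner ℝ (v i) (v j) = if (⟨i, hi⟩ : s) = ⟨j, hj⟩ then (1 : ℝ) else 0
    simp only [hv]
    rw [dif_pos hi', dif_pos hj', hinner]
    show dp (f ⟨i, hi'⟩) (f ⟨j, hj'⟩) = _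
    rw [hf]
    by_cases h : i = j
    · subst h
      simp
    · rw [if_neg, if_neg]
      · intro h'
        exact h (Subtype.mk.inj h')
      · intro h'
        exact h (Fin.ext (Fin.mk.inj_iff.1 h'))
  obtain ⟨b, hb⟩ := Orthonormal.exists_orthonormalBasis_extension_of_card_eq
    (𝕜 := ℝ) (E := EuclideanSpace ℝ (Fin p)) (ι := Fin p)
    (by rw [finrank_euclideanSpace]) hvs
  refine ⟨fun i => (b i).ofLp, fun c => ⟨c, lt_of_lt_of_le c.2 hap⟩, ?_, ?_, ?_⟩
  · intro c c' h
    exact Fin.ext (Fin.mk.inj_iff.1 h)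
  · intro c
    have h1 : (⟨c, lt_of_lt_of_le c.2 hap⟩ : Fin p) ∈ s := c.2
    show (b ⟨c, _⟩).ofLp = f c
    rw [hb _ h1]
    simp only [hv]
    rw [dif_pos c.2]
  · intro i j
    have := orthonormal_iff_ite.1 b.orthonormal i j
    rw [hinner] at this
    exact this

theorem orth_det {O : Matrix (Fin p) (Fin p) ℝ} (h : ∀ i j, dp (O i) (O j) = if i = j then 1 else 0) :
    |O.det| = 1 := by
  have h1 : O * O.transpose = 1 := by
    ext i j
    rw [Matrix.mul_apply, Matrix.one_apply, ← h i j]
    rfl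
  have h2 := congrArg Matrix.det h1
  rw [Matrix.det_mul, Matrix.det_transpose, Matrix.det_one] at h2
  have h3 : |O.det| * |O.det| = 1 := by rw [← abs_mul, h2, abs_one]
  nlinarith [abs_nonneg O.det]

/-- a law near an affine flat of dimension `a` has small entropy -/
theorem flat_count (w : Ω → ℝ) (hw : ∀ ω, 0 ≤ w ω) (hm : ∑ ω, w ω = 1) (R : ℕ) (V : Ω → Fin p → ℝ)
    (hV : ∀ ω, w ω ≠ 0 → ∀ i, 0 ≤ V ω i ∧ V ω i < 1) (hp : 1 ≤ p) (f : Fin a → Fin p → ℝ) (hf : ON f)
    (V0 : Fin p → ℝ) (hV0 : ∀ i, 0 ≤ V0 i ∧ V0 i < 1) (E : Ω → Prop) {δ : ℝ}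
    (hδ : Pw w (fun ω => ¬ E ω) ≤ δ)
    (hE : ∀ ω, w ω ≠ 0 → E ω → ∃ x : Fin a → ℝ, ∀ i,
      |(V ω - V0 - ∑ b, x b • f b) i| ≤ (1 / 2) ^ R) :
    Hh w (fun ω => cel R (V ω)) ≤ 1 + (p * Real.logb 2 (6 * p) + a * R) + δ * (p * R) := by
  classical
  obtain ⟨O, e, he, hOe, hO⟩ := ext_orth f hf
  have hdet := orth_det hO
  have hpr : (2 : ℝ) ^ R * (1 / 2) ^ R = 1 := by rw [← mul_pow]; norm_num
  have pp : (0 : ℝ) < 2 ^ R := by positivity
  have pp1 : (1 : ℝ) ≤ 2 ^ R := one_le_pow₀ (by norm_num)
  have p0 : (1 : ℝ) ≤ p := by exact_mod_cast hp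
  have hO1 : ∀ i j, |O i j| ≤ 1 := by
    intro i j
    refine abs_le_of_dp_one ?_ j
    rw [hO, if_pos rfl]
  have h := Hh_mat w hw hm R V hV O (by
      intro h0
      rw [h0, abs_zero] at hdet
      exact zero_ne_one hdet) (fun i => dp (O i) V0)
    (fun i => if i ∈ univ.image e then (p : ℝ) else p * (1 / 2) ^ R) (fun _ => (p : ℝ))
    (by
      intro i
      show 0 ≤ (if i ∈ univ.image e then (p : ℝ) else p * (1 / 2) ^ R)
      split_ifs <;> positivity)
    (by
      intro i
      refine (Finset.sum_le_sum fun j _ => hO1 i j).trans ?_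
      simp)
    (N := (6 * p) ^ p * 2 ^ (a * R)) (δ := δ) E
    (by
      intro ω h0 hEω i
      rw [← dp_sub_right]
      have hd : ∀ j, |(V ω - V0) j| ≤ 1 := by
        intro j
        have h1 := hV ω h0 j
        have h2 := hV0 j
        rw [Pi.sub_apply, abs_le]
        constructor <;> linarith [h1.1, h1.2, h2.1, h2.2]
      by_cases hi : i ∈ univ.image e
      · rw [if_pos hi]
        have := dp_abs_le (O i) (V ω - V0) (hO1 i) hd zero_le_one
        simpa using this
      · rw [if_neg hi]
        obtain ⟨x, hx⟩ := hE ω h0 hEω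
        have h3 : dp (O i) (∑ b, x b • f b) = 0 := by
          rw [dp_sum_right]
          refine Finset.sum_eq_zero fun b _ => ?_
          rw [dp_smul_right, ← hOe b, hO, if_neg, mul_zero]
          intro h4
          exact hi (Finset.mem_image.2 ⟨b, Finset.mem_univ b, h4.symm⟩)
        have h4 : dp (O i) (V ω - V0) = dp (O i) (V ω - V0 - ∑ b, x b • f b) := by
          rw [dp_sub_right (O i) (V ω - V0) (∑ b, x b • f b), h3, sub_zero]
        rw [h4]
        have := dp_abs_le (O i) _ (hO1 i) hx zero_le_one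
        simpa using this)
    hδ (by
      refine one_le_mul_of_one_le_of_one_le (one_le_pow₀ ?_) (one_le_pow₀ (by norm_num))
      linarith) (by
      rw [hdet, div_one]
      have h1 : ∀ i ∈ (univ : Finset (Fin p)), 2 * ((2 : ℝ) ^ R *
          (if i ∈ univ.image e then (p : ℝ) else p * (1 / 2) ^ R) + 2 * p) ≤
          6 * p * (if i ∈ univ.image e then (2 : ℝ) ^ R else 1) := by
        intro i _
        by_cases hi : i ∈ univ.image e
        · rw [if_pos hi, if_pos hi]
          nlinarith
        · rw [if_neg hi, if_neg hi]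
          have : (2 : ℝ) ^ R * (p * (1 / 2) ^ R) = p := by
            rw [mul_left_comm, hpr, mul_one]
          rw [this]
          linarith
      refine (Finset.prod_le_prod (fun i _ => ?_) h1).trans ?_
      · split_ifs <;> positivity
      · rw [Finset.prod_mul_distrib, Finset.prod_const, Finset.card_univ, Fintype.card_fin,
          Finset.prod_ite_mem, Finset.univ_inter, Finset.prod_const,
          Finset.card_image_of_injective _ he, Finset.card_univ, Fintype.card_fin, ← pow_mul,
          mul_comm R a])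
  have e1 : Real.logb 2 ((6 * (p : ℝ)) ^ p * 2 ^ (a * R)) = p * Real.logb 2 (6 * p) + a * R := by
    rw [Real.logb_mul (by positivity) (by positivity), logb_two_pow, ← Real.rpow_natCast,
      Real.logb_rpow_eq_mul_logb_of_pos (by positivity)]
    push_cast
    ring
  rw [e1] at h
  exact h

/-- control constant of one step -/
noncomputable def gam (p R : ℕ) : ℝ := 2 ^ R * (1 + (p : ℝ) ^ 2)

theorem gam_one (p R : ℕ) : 1 ≤ gam p R := by
  unfold gam
  refine one_le_mul_of_one_le_of_one_le (one_le_pow₀ (by norm_num)) ?_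
  have : (0 : ℝ) ≤ (p : ℝ) ^ 2 := by positivity
  linarith

/-- **frame**: a law with entropy more than `(g - 1) R + C` has an orthonormal frame of `g` vectors
which are controlled by its differences -/
theorem frame (w : Ω → ℝ) (hw : ∀ ω, 0 ≤ w ω) (hm : ∑ ω, w ω = 1) (R : ℕ) (V : Ω → Fin p → ℝ)
    (hV : ∀ ω, w ω ≠ 0 → ∀ i, 0 ≤ V ω i ∧ V ω i < 1) (hp : 1 ≤ p)
    (V0 : Fin p → ℝ) (hV0 : ∀ i, 0 ≤ V0 i ∧ V0 i < 1) (E : Ω → Prop) {δ : ℝ}
    (hδ : Pw w (fun ω => ¬ E ω) ≤ δ) : ∀ g : ℕ,
    1 + (p * Real.logb 2 (6 * p) + ((g : ℝ) - 1) * R) + δ * (p * R) < Hh w (fun ω => cel R (V ω)) →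
    ∃ f : Fin g → Fin p → ℝ, ON f ∧ ∀ (u : Fin p → ℝ) (t : ℝ), 0 ≤ t →
      (∀ ω, w ω ≠ 0 → E ω → |dp u (V ω - V0)| ≤ t) → ∀ b, |dp u (f b)| ≤ gam p R ^ g * t := by
  classical
  intro g
  induction g with
  | zero =>
    intro _
    exact ⟨fun b => b.elim0, fun b => b.elim0, fun u t _ _ b => b.elim0⟩
  | succ g ih =>
    intro hH
    have hR0 : (0 : ℝ) ≤ R := Nat.cast_nonneg R
    push_cast at hH
    obtain ⟨f, hf, hc⟩ := ih (lt_of_le_of_lt (by nlinarith) hH)
    have G1 : (1 : ℝ) ≤ gam p R ^ g := one_le_pow₀ (gam_one p R)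
    -- a point which is not near the flat
    obtain ⟨ω, h0, hEω, hω⟩ : ∃ ω, w ω ≠ 0 ∧ E ω ∧ ∀ x : Fin g → ℝ, ∃ i,
        (1 / 2) ^ R < |(V ω - V0 - ∑ b, x b • f b) i| := by
      by_contra hcon
      push Not at hcon
      have h := flat_count w hw hm R V hV hp f hf V0 hV0 E hδ (fun ω h0 hE => by
        obtain ⟨x, hx⟩ := hcon ω h0 hE
        exact ⟨x, hx⟩)
      have : (g : ℝ) + 1 - 1 = g := by ring
      rw [this] at hH
      linarith
    set Z : Fin p → ℝ := V ω - V0 with hZ
    set x : Fin p → ℝ := Z - ∑ b, dp Z (f b) • f b with hx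
    obtain ⟨i0, hi0⟩ := hω (fun b => dp Z (f b))
    have hxx : ((1 / 2) ^ R) ^ 2 < dp x x := by
      refine lt_of_lt_of_le ?_ (sq_le_dp x i0)
      rw [← sq_abs (x i0)]
      exact pow_lt_pow_left₀ hi0 (by positivity) (by norm_num)
    have hxx0 : 0 < dp x x := lt_trans (by positivity) hxx
    set L : ℝ := Real.sqrt (dp x x) with hL
    have hL1 : (1 / 2) ^ R < L := Real.lt_sqrt_of_sq_lt hxx
    have hL0 : 0 < L := lt_trans (by positivity) hL1
    have hLsq : L * L = dp x x := Real.mul_self_sqrt hxx0.le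
    -- orthogonality
    have hxf : ∀ c, dp x (f c) = 0 := by
      intro c
      rw [hx, dp_sub_left, dp_sum_left]
      have : ∑ b, dp (dp Z (f b) • f b) (f c) = dp Z (f c) := by
        simp only [dp_smul_left, hf _ _]
        simp
      rw [this, sub_self]
    have hZ1 : ∀ j, |Z j| ≤ 1 := by
      intro j
      have h1 := hV ω h0 j
      have h2 := hV0 j
      rw [hZ, Pi.sub_apply, abs_le]
      constructor <;> linarith [h1.1, h1.2, h2.1, h2.2]
    refine ⟨Fin.snoc f (L⁻¹ • x), ?_, ?_⟩
    · intro b c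
      induction b using Fin.lastCases with
      | last =>
        induction c using Fin.lastCases with
        | last =>
          rw [Fin.snoc_last, dp_smul_left, dp_smul_right, if_pos rfl, ← hLsq]
          field_simp
        | cast c =>
          rw [Fin.snoc_last, Fin.snoc_castSucc, dp_smul_left, hxf, mul_zero, if_neg]
          exact fun h => absurd h.symm (Fin.castSucc_lt_last c).ne
      | cast b =>
        induction c using Fin.lastCases with
        | last =>
          rw [Fin.snoc_last, Fin.snoc_castSucc, dp_smul_right, dp_comm, hxf, mul_zero, if_neg]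
          exact (Fin.castSucc_lt_last b).ne
        | cast c =>
          rw [Fin.snoc_castSucc, Fin.snoc_castSucc, hf]
          by_cases h : b = c
          · subst h; simp
          · rw [if_neg h, if_neg]
            exact fun h' => h (Fin.castSucc_injective g h')
    · intro u t ht hu b
      have hstep : gam p R ^ g * t ≤ gam p R ^ (g + 1) * t := by
        refine mul_le_mul_of_nonneg_right ?_ ht
        rw [pow_succ]
        have := gam_one p R
        nlinarith
      induction b using Fin.lastCases with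
      | cast b =>
        rw [Fin.snoc_castSucc]
        exact (hc u t ht hu b).trans hstep
      | last =>
        rw [Fin.snoc_last, dp_smul_right, abs_mul, abs_of_pos (inv_pos.2 hL0)]
        have h1 : |dp u x| ≤ (1 + (p : ℝ) ^ 2) * (gam p R ^ g * t) := by
          rw [hx, dp_sub_right, dp_sum_right]
          refine (abs_sub _ _).trans ?_
          have h2 := hu ω h0 hEω
          have hG : 0 ≤ gam p R ^ g * t := by positivity
          have h3 : |∑ b, dp u (dp Z (f b) • f b)| ≤ g * (p * (gam p R ^ g * t)) := by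
            refine (Finset.abs_sum_le_sum_abs _ _).trans ?_
            have : ∀ b ∈ (univ : Finset (Fin g)), |dp u (dp Z (f b) • f b)| ≤
                p * (gam p R ^ g * t) := by
              intro b _
              rw [dp_smul_right, abs_mul]
              have h4 := dp_abs_le Z (f b) hZ1 (hf.abs_le b) zero_le_one
              have h5 := hc u t ht hu b
              rw [mul_one, mul_one] at h4
              exact mul_le_mul h4 h5 (abs_nonneg _) (by positivity)
            refine (Finset.sum_le_sum this).trans ?_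
            rw [Finset.sum_const, Finset.card_univ, Fintype.card_fin, nsmul_eq_mul]
          have hgp : (g : ℝ) ≤ p := by
            obtain ⟨_, e, he, _⟩ := ext_orth f hf
            have := Fintype.card_le_of_injective e he
            rw [Fintype.card_fin, Fintype.card_fin] at this
            exact_mod_cast this
          have h6 : (g : ℝ) * (p * (gam p R ^ g * t)) ≤ p * (p * (gam p R ^ g * t)) :=
            mul_le_mul_of_nonneg_right hgp (by positivity)
          have h7 : t ≤ gam p R ^ g * t := by nlinarith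
          linarith
        have h8 : L⁻¹ ≤ 2 ^ R := by
          rw [inv_le_comm₀ hL0 (by positivity)]
          have : ((2 : ℝ) ^ R)⁻¹ = (1 / 2) ^ R := by rw [one_div, inv_pow]
          rw [this]
          exact hL1.le
        calc L⁻¹ * |dp u x| ≤ 2 ^ R * ((1 + (p : ℝ) ^ 2) * (gam p R ^ g * t)) :=
              mul_le_mul h8 h1 (abs_nonneg _) (by positivity)
          _ = gam p R ^ (g + 1) * t := by
              rw [pow_succ]
              unfold gam
              ring

end Pool.Agent.Helper46.WF
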