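import Mathlib

/-!
# The graph lemma

`B` is a subset of an interval of length `T` of density at least `c`. Any two points of `{0, …, T}`
are joined by at most `4 / c` steps, every step being `±1` or a difference of two elements of `B`.
-/

set_option autoImplicit false

namespace Pool.Agent.Helper46.WF

open Finset

/-- steps `±1` and differences of elements of `B` -/
def gr (T : ℕ) (B : Finset ℕ) : SimpleGraph (Fin (T + 1)) where
  Adj s s' := s ≠ s' ∧ (s'.1 = s.1 + 1 ∨ s.1 = s'.1 + 1 ∨ ∃ b ∈ B, ∃ b' ∈ B, s.1 + b' = s'.1 + b)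
  symm := by
    constructor
    rintro s s' ⟨h, h1 | h1 | ⟨b, hb, b', hb', h1⟩⟩
    · exact ⟨h.symm, Or.inr (Or.inl h1)⟩
    · exact ⟨h.symm, Or.inl h1⟩
    · exact ⟨h.symm, Or.inr (Or.inr ⟨b', hb', b, hb, h1.symm⟩)⟩
  loopless := ⟨fun s h => h.1 rfl⟩

theorem gr_reach0 (T : ℕ) (B : Finset ℕ) : ∀ (k : ℕ) (hk : k < T + 1),
    (gr T B).Reachable ⟨0, Nat.succ_pos T⟩ ⟨k, hk⟩ := by
  intro k
  induction k with
  | zero => intro hk; exact SimpleGraph.Reachable.refl _
  | succ k ih =>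
    intro hk
    refine (ih (by omega)).trans (SimpleGraph.Adj.reachable ⟨?_, Or.inl rfl⟩)
    intro h
    have := congrArg Fin.val h
    simp at this

theorem gr_conn (T : ℕ) (B : Finset ℕ) : (gr T B).Connected := by
  refine ⟨fun s s' => ?_⟩
  exact ((gr_reach0 T B s.1 s.2).symm).trans (gr_reach0 T B s'.1 s'.2)

/-- points at distance two or more give disjoint translates of `B` -/
theorem gr_trans {T : ℕ} {B : Finset ℕ} {s s' : Fin (T + 1)} (h : 2 ≤ (gr T B).dist s s')
    {b b' : ℕ} (hb : b ∈ B) (hb' : b' ∈ B) : s.1 + b' ≠ s'.1 + b := by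
  intro h1
  have hne : s ≠ s' := by
    rintro rfl
    rw [SimpleGraph.dist_self] at h
    omega
  have hadj : (gr T B).Adj s s' := ⟨hne, Or.inr (Or.inr ⟨b, hb, b', hb', h1⟩)⟩
  have := SimpleGraph.dist_eq_one_iff_adj.2 hadj
  omega

theorem gr_dist_lt {T a0 : ℕ} {B : Finset ℕ} (hB : ∀ b ∈ B, a0 ≤ b ∧ b ≤ a0 + T)
    (s s' : Fin (T + 1)) : ((gr T B).dist s s' / 2 + 1) * B.card ≤ 2 * T + 1 := by
  classical
  obtain ⟨p, hp⟩ := (gr_conn T B).exists_walk_length_eq_dist s s'
  set n := (gr T B).dist s s' with hn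
  -- vertices of the shortest walk
  have hd : ∀ i, i ≤ n → (gr T B).dist s (p.getVert i) = i := by
    intro i hi
    have h1 : (gr T B).dist s (p.getVert i) ≤ i := by
      have := SimpleGraph.dist_le (p.take i)
      rwa [SimpleGraph.Walk.take_length, hp, min_eq_left hi] at this
    have h2 : (gr T B).dist (p.getVert i) s' ≤ n - i := by
      have := SimpleGraph.dist_le (p.drop i)
      rwa [SimpleGraph.Walk.drop_length, hp] at this
    have h3 := (gr_conn T B).dist_triangle (u := s) (v := p.getVert i) (w := s')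
    omega
  have hij : ∀ i j, i < j → j ≤ n → 2 ≤ j - i →
      2 ≤ (gr T B).dist (p.getVert i) (p.getVert j) := by
    intro i j h1 h2 h3
    have h4 := (gr_conn T B).dist_triangle (u := s) (v := p.getVert i) (w := p.getVert j)
    rw [hd i (by omega), hd j h2] at h4
    omega
  -- disjoint translates
  have hinj : Set.InjOn (fun q : ℕ × ℕ => (p.getVert (2 * q.1)).1 + q.2)
      ((Finset.range (n / 2 + 1) ×ˢ B : Finset (ℕ × ℕ)) : Set (ℕ × ℕ)) := by
    rintro ⟨i, b⟩ hib ⟨j, b'⟩ hjb h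
    simp only [Finset.coe_product, Set.mem_prod, Finset.mem_coe, Finset.mem_range] at hib hjb
    simp only at h
    rcases lt_trichotomy i j with h1 | h1 | h1
    · exact absurd h (gr_trans (hij (2 * i) (2 * j) (by omega) (by omega) (by omega)) hjb.2 hib.2)
    · subst h1
      simp only [Prod.mk.injEq, true_and]
      omega
    · exact absurd h.symm
        (gr_trans (hij (2 * j) (2 * i) (by omega) (by omega) (by omega)) hib.2 hjb.2)
  have hmap : ∀ q ∈ (Finset.range (n / 2 + 1) ×ˢ B : Finset (ℕ × ℕ)),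
      (fun q : ℕ × ℕ => (p.getVert (2 * q.1)).1 + q.2) q ∈ Finset.Icc a0 (a0 + 2 * T) := by
    rintro ⟨i, b⟩ hib
    simp only [Finset.mem_product, Finset.mem_range] at hib
    have h1 := hB b hib.2
    have h2 := (p.getVert (2 * i)).2
    simp only [Finset.mem_Icc]
    omega
  have hcard := Finset.card_le_card_of_injOn _ hmap hinj
  rw [Finset.card_product, Finset.card_range, Nat.card_Icc] at hcard
  omega

/-- **the graph lemma**, combinatorial form -/
theorem graph_dist {T a0 : ℕ} {B : Finset ℕ} (hB : ∀ b ∈ B, a0 ≤ b ∧ b ≤ a0 + T) {c : ℝ}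
    (hc : 0 < c) (hcard : c * (T + 1) ≤ B.card) (s s' : Fin (T + 1)) :
    ((gr T B).dist s s' : ℝ) ≤ 4 / c := by
  have h := gr_dist_lt hB s s'
  set n := (gr T B).dist s s'
  have h1 : ((n / 2 + 1 : ℕ) : ℝ) * (B.card : ℝ) ≤ 2 * T + 1 := by exact_mod_cast h
  have h2 : (n : ℝ) / 2 ≤ ((n / 2 + 1 : ℕ) : ℝ) := by
    have : n ≤ 2 * (n / 2 + 1) := by omega
    have h3 : (n : ℝ) ≤ 2 * ((n / 2 + 1 : ℕ) : ℝ) := by exact_mod_cast this
    linarith
  have hT : (0 : ℝ) < T + 1 := by positivity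
  have h4 : (n : ℝ) / 2 * (c * (T + 1)) ≤ 2 * (T + 1) := by
    calc (n : ℝ) / 2 * (c * (T + 1)) ≤ ((n / 2 + 1 : ℕ) : ℝ) * (B.card : ℝ) := by
          gcongr
      _ ≤ 2 * T + 1 := h1
      _ ≤ 2 * (T + 1) := by linarith
  have h5 : (n : ℝ) / 2 * c ≤ 2 := by
    have : ((n : ℝ) / 2 * c) * (T + 1) ≤ 2 * (T + 1) := by linarith
    exact le_of_mul_le_mul_right this hT
  rw [le_div_iff₀ hc]
  linarith

/-- **the graph lemma** for a pseudometric `D` which is at most `α` on the edges -/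
theorem graph_metric {T a0 : ℕ} {B : Finset ℕ} (hB : ∀ b ∈ B, a0 ≤ b ∧ b ≤ a0 + T) {c α : ℝ}
    (hc : 0 < c) (hα : 0 ≤ α) (hcard : c * (T + 1) ≤ B.card) (D : ℕ → ℕ → ℝ)
    (h0 : ∀ s, D s s ≤ 0) (hsym : ∀ s s', D s s' = D s' s)
    (htri : ∀ s t u, D s u ≤ D s t + D t u) (hstep : ∀ s, s < T → D s (s + 1) ≤ α)
    (hpop : ∀ s s', s ≤ T → s' ≤ T → ∀ b ∈ B, ∀ b' ∈ B, s + b' = s' + b → D s s' ≤ α) :
    ∀ s s', s ≤ T → s' ≤ T → D s s' ≤ 4 / c * α := by
  have key : ∀ (s s' : Fin (T + 1)) (p : (gr T B).Walk s s'), D s.1 s'.1 ≤ p.length * α := by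
    intro s s' p
    induction p with
    | nil => simpa using h0 _
    | @cons u v w h p ih =>
      have h1 : D u.1 v.1 ≤ α := by
        rcases h.2 with h2 | h2 | ⟨b, hb, b', hb', h2⟩
        · rw [h2]
          exact hstep u.1 (by have := v.2; omega)
        · rw [h2, hsym]
          exact hstep v.1 (by have := u.2; omega)
        · exact hpop u.1 v.1 (by have := u.2; omega) (by have := v.2; omega) b hb b' hb' h2
      have h3 := htri u.1 v.1 w.1
      rw [SimpleGraph.Walk.length_cons]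
      push_cast
      linarith
  intro s s' hs hs'
  have h1 := graph_dist hB hc hcard ⟨s, by omega⟩ ⟨s', by omega⟩
  obtain ⟨p, hp⟩ := (gr_conn T B).exists_walk_length_eq_dist ⟨s, by omega⟩ ⟨s', by omega⟩
  have h2 := key _ _ p
  rw [hp] at h2
  exact h2.trans (mul_le_mul_of_nonneg_right h1 hα)

end Pool.Agent.Helper46.WF
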