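import Pool.Agent.Helper46.WF.PairP

/-!
# Inheritance of strips by most subcells (dimension `p`)
-/

set_option autoImplicit false

namespace Pool.Agent.Helper46.WF

open Finset Matrix Pool.Agent.Helper69.RK Pool.Agent.Helper61.GL

variable {p : ℕ}

/-- the position in the cell of level `l` -/
noncomputable def frP (l : ℕ) (v : Fin p → ℝ) : Fin p → ℝ := fun i => Int.fract ((2 : ℝ) ^ l * v i)

theorem frP_mem (l : ℕ) (v : Fin p → ℝ) (i : Fin p) : 0 ≤ frP l v i ∧ frP l v i < 1 :=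
  ⟨Int.fract_nonneg _, Int.fract_lt_one _⟩

/-- the law given the cell of level `l` of `X` -/
noncomputable def lwP {Ω : Type} [Fintype Ω] (μ : Ω → ℝ) (X : Ω → Fin p → ℝ) (l : ℕ) (ω : Ω) : Ω → ℝ :=
  cw μ (fun ω' => cel l (X ω')) ω

/-- conditioning in two steps -/
theorem cw_cw' {Ω γ δ : Type} [Fintype Ω] (μ : Ω → ℝ) (hμ : ∀ ω, 0 ≤ μ ω) (G : Ω → γ) (H : Ω → δ)
    (href : ∀ ω ω', H ω = H ω' → G ω = G ω') {ω ω' : Ω} (h0 : μ ω ≠ 0) (h : G ω' = G ω) :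
    cw (cw μ G ω) H ω' = cw μ H ω' := by
  classical
  funext x
  have hP := e1_pr_pos μ G hμ ω h0
  have e1 : pr (cw μ G ω) H ω' = pr μ H ω' / pr μ G ω := by
    rw [e1_pr_eq, e1_pr_eq, Finset.sum_div]
    refine Finset.sum_congr rfl fun y _ => ?_
    unfold cw
    by_cases k : H y = H ω'
    · rw [if_pos k, if_pos k, if_pos ((href y ω' k).trans h)]
    · rw [if_neg k, if_neg k, zero_div]
  unfold cw at e1 ⊢
  rw [e1]
  by_cases k : H x = H ω'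
  · rw [if_pos k, if_pos k, if_pos ((href x ω' k).trans h)]
    field_simp
  · rw [if_neg k, if_neg k]
    simp

theorem cel_refP {l : ℕ} {x y : Fin p → ℝ} (h : cel (l + 1) x = cel (l + 1) y) : cel l x = cel l y := by
  funext i
  have h1 : ⌊(2 : ℝ) ^ (l + 1) * x i⌋ = ⌊(2 : ℝ) ^ (l + 1) * y i⌋ := congrFun h i
  show ⌊(2 : ℝ) ^ l * x i⌋ = ⌊(2 : ℝ) ^ l * y i⌋
  have key : ∀ t : ℝ, ⌊t⌋ = ⌊2 * t⌋ / 2 := by
    intro t
    have := Int.floor_div_natCast (2 * t) 2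
    rw [show (2 * t / ((2 : ℕ) : ℝ)) = t by push_cast; ring] at this
    rw [this]
    rfl
  rw [key, key ((2 : ℝ) ^ l * y i)]
  have e : ∀ t : ℝ, 2 * ((2 : ℝ) ^ l * t) = 2 ^ (l + 1) * t := by
    intro t
    rw [pow_succ]
    ring
  rw [e, e, h1]

theorem frP_succ (l : ℕ) (x : Fin p → ℝ) :
    frP (l + 1) x = (2 : ℝ) • frP l x - fun i => (cel (l + 1) x i : ℝ) - 2 * (cel l x i : ℝ) := by
  funext i
  show Int.fract ((2 : ℝ) ^ (l + 1) * x i) = 2 * Int.fract ((2 : ℝ) ^ l * x i) -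
    ((⌊(2 : ℝ) ^ (l + 1) * x i⌋ : ℝ) - 2 * (⌊(2 : ℝ) ^ l * x i⌋ : ℝ))
  unfold Int.fract
  rw [pow_succ]
  ring

/-- **inheritance** -/
theorem inhP {Ω : Type} [Fintype Ω] (μ : Ω → ℝ) (X : Ω → Fin p → ℝ) (hμ : ∀ ω, 0 ≤ μ ω) (l : ℕ)
    (ω : Ω) (h0 : μ ω ≠ 0) (Q : Matrix (Fin p) (Fin p) ℝ) {r e : ℝ} (he : 0 < e)
    (h : StrP (lwP μ X l ω) (fun ω' => frP l (X ω')) Q r (e ^ 2)) :
    Pw (lwP μ X l ω) (fun ω' => ¬ StrP (lwP μ X (l + 1) ω') (fun ω'' => frP (l + 1) (X ω'')) Q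
      (2 * r) e) ≤ e := by
  classical
  obtain ⟨c, hc⟩ := h
  set A : Ω → Prop := fun ω' => ∃ i, r < |(Q *ᵥ (frP l (X ω') - c)) i| with hA
  have hw : ∀ ω', 0 ≤ lwP μ X l ω ω' := cw_nonneg μ _ hμ ω
  have h1 := cw_expect (lwP μ X l ω) hw (fun ω' => cel (l + 1) (X ω'))
    (fun ω' => if A ω' then (1 : ℝ) else 0)
  have h2 : ∀ ω', lwP μ X l ω ω' ≠ 0 →
      cw (lwP μ X l ω) (fun ω'' => cel (l + 1) (X ω'')) ω' = lwP μ X (l + 1) ω' := by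
    intro ω' h
    have h3 := cw_ne_zero μ _ h
    exact cw_cw' μ hμ (fun ω'' => cel l (X ω'')) (fun ω'' => cel (l + 1) (X ω''))
      (fun ω1 ω2 h => cel_refP h) h0 h3.1
  have hsum : ∀ (v : Ω → ℝ), Pw v A = ∑ ω, v ω * (if A ω then (1 : ℝ) else 0) := by
    intro v
    unfold Pw
    refine Finset.sum_congr rfl fun ω _ => ?_
    by_cases h : A ω <;> simp [h]
  have h3 : ∑ ω', lwP μ X l ω ω' * Pw (lwP μ X (l + 1) ω') A ≤ e ^ 2 := by
    have h4 : ∑ ω', lwP μ X l ω ω' * Pw (lwP μ X (l + 1) ω') A =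
        ∑ ω', lwP μ X l ω ω' * ∑ ω'', cw (lwP μ X l ω) (fun ω'' => cel (l + 1) (X ω'')) ω' ω'' *
          (if A ω'' then (1 : ℝ) else 0) := by
      refine Finset.sum_congr rfl fun ω' _ => ?_
      by_cases h5 : lwP μ X l ω ω' = 0
      · rw [h5, zero_mul, zero_mul]
      · rw [h2 ω' h5, hsum]
    rw [h4, h1, ← hsum]
    exact hc
  have h4 := Pw_markov (lwP μ X l ω) hw (fun ω' => Pw (lwP μ X (l + 1) ω') A)
    (fun ω' _ => Pw_nonneg _ (cw_nonneg μ _ hμ ω') _) he h3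
  have h5 : e ^ 2 / e = e := by rw [sq, mul_div_assoc, div_self he.ne', mul_one]
  rw [h5] at h4
  refine (Pw_mono _ hw ?_).trans h4
  intro ω' hω' hn
  by_contra hle
  rw [not_lt] at hle
  apply hn
  set d : Fin p → ℝ := fun i => (cel (l + 1) (X ω') i : ℝ) - 2 * (cel l (X ω') i : ℝ) with hd
  refine ⟨(2 : ℝ) • c - d, (Pw_mono _ (cw_nonneg μ _ hμ ω') ?_).trans hle⟩
  rintro ω'' h6 ⟨i, hi⟩
  have h8 : cel (l + 1) (X ω'') = cel (l + 1) (X ω') := (cw_ne_zero μ _ h6).1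
  have h9 : cel l (X ω'') = cel l (X ω') := cel_refP h8
  refine ⟨i, ?_⟩
  have h10 : frP (l + 1) (X ω'') - ((2 : ℝ) • c - d) = (2 : ℝ) • (frP l (X ω'') - c) := by
    rw [frP_succ, h8, h9, smul_sub]
    simp only [hd]
    abel
  rw [h10, Matrix.mulVec_smul, Pi.smul_apply, smul_eq_mul, abs_mul,
    abs_of_pos (by norm_num : (0 : ℝ) < 2)] at hi
  linarith

end Pool.Agent.Helper46.WF
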