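import Pool.Agent.Helper46.WF.Flat

/-!
# One pair of cells in dimension `p = g + k`: direction, uniqueness, end

Flats are represented by orthogonal projections: `StrP w V Q r e` says that `Q (V - c)` is at most `r`
(in every coordinate) up to the probability `e`.
-/

set_option autoImplicit false

namespace Pool.Agent.Helper46.WF

open Finset Matrix Pool.Agent.Helper69.RK Pool.Agent.Helper61.GL

variable {Ω Ω' : Type} [Fintype Ω] [Fintype Ω'] {p a g k : ℕ}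

/-- orthogonal projection of rank `k` -/
structure Prj (p k : ℕ) (Q : Matrix (Fin p) (Fin p) ℝ) : Prop where
  sym : Q.transpose = Q
  idem : Q * Q = Q
  tr : Q.trace = k

/-- strips -/
def StrP (w : Ω → ℝ) (V : Ω → Fin p → ℝ) (Q : Matrix (Fin p) (Fin p) ℝ) (r e : ℝ) : Prop :=
  ∃ c : Fin p → ℝ, Pw w (fun ω => ∃ i, r < |(Q *ᵥ (V ω - c)) i|) ≤ e

/-- projection to the span of a frame -/
noncomputable def prF (f : Fin a → Fin p → ℝ) : Matrix (Fin p) (Fin p) ℝ :=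
  fun i j => ∑ b, f b i * f b j

theorem prF_mulVec (f : Fin a → Fin p → ℝ) (x : Fin p → ℝ) :
    prF f *ᵥ x = ∑ b, dp (f b) x • f b := by
  funext i
  rw [Finset.sum_apply]
  unfold Matrix.mulVec dotProduct prF dp
  simp only [Pi.smul_apply, smul_eq_mul, Finset.sum_mul]
  rw [Finset.sum_comm]
  refine Finset.sum_congr rfl fun b _ => Finset.sum_congr rfl fun j _ => ?_
  ring

theorem mulVec_apply_dp (Q : Matrix (Fin p) (Fin p) ℝ) (x : Fin p → ℝ) (i : Fin p) :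
    (Q *ᵥ x) i = dp (Q i) x := rfl

theorem prF_prj {f : Fin a → Fin p → ℝ} (hf : ON f) : Prj p a (prF f) := by
  refine ⟨?_, ?_, ?_⟩
  · ext i j
    rw [Matrix.transpose_apply]
    exact Finset.sum_congr rfl fun b _ => mul_comm _ _
  · ext i j
    rw [Matrix.mul_apply]
    have h1 : ∑ l, prF f i l * prF f l j = (prF f *ᵥ (fun l => prF f l j)) i := rfl
    rw [h1, prF_mulVec, Finset.sum_apply]
    have h2 : ∀ b, dp (f b) (fun l => prF f l j) = f b j := by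
      intro b
      have h3 : (fun l => prF f l j) = ∑ c, f c j • f c := by
        funext l
        rw [Finset.sum_apply]
        exact Finset.sum_congr rfl fun c _ => by simp only [Pi.smul_apply, smul_eq_mul]; ring
      rw [h3, dp_sum_right]
      simp only [dp_smul_right, hf _ _]
      simp
    show ∑ b, (dp (f b) (fun l => prF f l j) • f b) i = ∑ b, f b i * f b j
    refine Finset.sum_congr rfl fun b _ => ?_
    rw [h2, Pi.smul_apply, smul_eq_mul, mul_comm]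
  · show ∑ i, ∑ b, f b i * f b i = (a : ℝ)
    rw [Finset.sum_comm]
    have : ∀ b ∈ (univ : Finset (Fin a)), ∑ i, f b i * f b i = 1 := by
      intro b _
      have := hf b b
      rw [if_pos rfl] at this
      exact this
    rw [Finset.sum_congr rfl this]
    simp

theorem Prj.compl {Q : Matrix (Fin p) (Fin p) ℝ} (hQ : Prj p k Q) (h : g + k = p) :
    Prj p g (1 - Q) := by
  refine ⟨?_, ?_, ?_⟩
  · rw [Matrix.transpose_sub, Matrix.transpose_one, hQ.sym]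
  · rw [Matrix.sub_mul, Matrix.mul_sub, Matrix.mul_sub, hQ.idem]
    simp
  · rw [Matrix.trace_sub, Matrix.trace_one, hQ.tr, Fintype.card_fin, ← h]
    push_cast
    ring

/-- square of the Hilbert-Schmidt norm -/
noncomputable def hs (M : Matrix (Fin p) (Fin p) ℝ) : ℝ := ∑ i, ∑ j, M i j ^ 2

theorem entry_le_hs (M : Matrix (Fin p) (Fin p) ℝ) (i j : Fin p) : M i j ^ 2 ≤ hs M := by
  unfold hs
  calc M i j ^ 2 ≤ ∑ j, M i j ^ 2 :=
        Finset.single_le_sum (f := fun j => M i j ^ 2) (fun _ _ => sq_nonneg _) (Finset.mem_univ j)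
    _ ≤ _ := Finset.single_le_sum (f := fun i => ∑ j, M i j ^ 2)
        (fun _ _ => Finset.sum_nonneg fun _ _ => sq_nonneg _) (Finset.mem_univ i)

theorem hs_eq (M : Matrix (Fin p) (Fin p) ℝ) : hs M = (M * M.transpose).trace := by
  unfold hs Matrix.trace
  refine Finset.sum_congr rfl fun i _ => ?_
  rw [Matrix.diag_apply, Matrix.mul_apply]
  exact Finset.sum_congr rfl fun j _ => by rw [Matrix.transpose_apply]; ring

theorem hs_prj {Q P : Matrix (Fin p) (Fin p) ℝ} (hQ : Prj p g Q) (hP : Prj p g P) :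
    hs (Q - P) = 2 * ((1 - Q) * P).trace := by
  rw [hs_eq, Matrix.transpose_sub, hQ.sym, hP.sym, Matrix.sub_mul, Matrix.mul_sub, Matrix.mul_sub,
    hQ.idem, hP.idem, Matrix.sub_mul, Matrix.one_mul]
  simp only [Matrix.trace_sub]
  rw [Matrix.trace_mul_comm P Q, hQ.tr, hP.tr]
  ring

/-- trace against the projection to a frame -/
theorem trace_prF {Q : Matrix (Fin p) (Fin p) ℝ} (hQ : Prj p k Q) (f : Fin a → Fin p → ℝ) :
    (Q * prF f).trace = ∑ b, dp (Q *ᵥ f b) (Q *ᵥ f b) := by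
  have h1 : (Q * prF f).trace = ∑ b, dp (f b) (Q *ᵥ f b) := by
    rw [Matrix.trace_mul_comm]
    unfold Matrix.trace
    simp only [Matrix.diag_apply, Matrix.mul_apply]
    have h2 : ∀ i j, prF f i j * Q j i = ∑ b, f b i * (Q j i * f b j) := by
      intro i j
      unfold prF
      rw [Finset.sum_mul]
      exact Finset.sum_congr rfl fun b _ => by ring
    simp only [h2]
    have h3 : ∀ b, dp (f b) (Q *ᵥ f b) = ∑ i, ∑ j, f b i * (Q j i * f b j) := by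
      intro b
      unfold dp Matrix.mulVec dotProduct
      refine Finset.sum_congr rfl fun i _ => ?_
      rw [Finset.mul_sum]
      refine Finset.sum_congr rfl fun j _ => ?_
      have : Q i j = Q j i := by
        have := congrFun (congrFun hQ.sym i) j
        rw [Matrix.transpose_apply] at this
        exact this.symm
      show f b i * (Q i j * f b j) = f b i * (Q j i * f b j)
      rw [this]
    simp only [h3]
    rw [Finset.sum_comm]
    rw [show (∑ b : Fin a, ∑ i, ∑ j, f b i * (Q j i * f b j)) =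
      ∑ i, ∑ b : Fin a, ∑ j, f b i * (Q j i * f b j) from Finset.sum_comm]
    rw [show (∑ j : Fin p, ∑ i : Fin p, ∑ b, f b i * (Q j i * f b j)) =
      ∑ i : Fin p, ∑ j : Fin p, ∑ b, f b i * (Q j i * f b j) from Finset.sum_comm]
    refine Finset.sum_congr rfl fun i _ => ?_
    exact Finset.sum_comm
  rw [h1]
  refine Finset.sum_congr rfl fun b _ => ?_
  -- `x . Q x = Q x . Q x`
  have h4 : ∀ x : Fin p → ℝ, dp x (Q *ᵥ x) = dp (Q *ᵥ x) (Q *ᵥ x) := by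
    intro x
    have h5 : Q *ᵥ (Q *ᵥ x) = Q *ᵥ x := by rw [Matrix.mulVec_mulVec, hQ.idem]
    have h6 : dp (Q *ᵥ x) (Q *ᵥ x) = dp x (Q *ᵥ (Q *ᵥ x)) := by
      show (Q *ᵥ x) ⬝ᵥ (Q *ᵥ x) = x ⬝ᵥ (Q *ᵥ (Q *ᵥ x))
      rw [Matrix.dotProduct_mulVec x, ← Matrix.mulVec_transpose, hQ.sym]
    rw [h6, h5]
  exact h4 (f b)

/-- a projection for which a controlled frame is small is near the complement of the frame -/
theorem near_of_small {Q : Matrix (Fin p) (Fin p) ℝ} (hQ : Prj p k Q) (hgk : g + k = p)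
    (f : Fin g → Fin p → ℝ) (hf : ON f) {s : ℝ} (hs0 : 0 ≤ s) (h : ∀ b i, |(Q *ᵥ f b) i| ≤ s) (i j : Fin p) :
    |(1 - Q - prF f) i j| ≤ 2 * p * s := by
  have h1 := hs_prj (hQ.compl hgk) (prF_prj hf)
  have h2 : (1 - (1 - Q)) = Q := by abel
  rw [h2, trace_prF hQ f] at h1
  have h3 : ∑ b, dp (Q *ᵥ f b) (Q *ᵥ f b) ≤ p * (p * (s * s)) := by
    have h4 : ∀ b ∈ (univ : Finset (Fin g)), dp (Q *ᵥ f b) (Q *ᵥ f b) ≤ p * (s * s) := by
      intro b _
      exact (le_abs_self _).trans (dp_abs_le _ _ (h b) (h b) hs0)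
    refine (Finset.sum_le_sum h4).trans ?_
    rw [Finset.sum_const, Finset.card_univ, Fintype.card_fin, nsmul_eq_mul]
    refine mul_le_mul_of_nonneg_right ?_ (by positivity)
    have : g ≤ p := by omega
    exact_mod_cast this
  have h5 := entry_le_hs (1 - Q - prF f) i j
  rw [h1] at h5
  have p0 : (0 : ℝ) ≤ p := Nat.cast_nonneg p
  refine abs_le_of_sq_le_sq' ?_ (by positivity) |> fun h => abs_le.2 h
  nlinarith [mul_nonneg (mul_nonneg p0 p0) (mul_nonneg hs0 hs0)]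

theorem mulVec_abs_le {M : Matrix (Fin p) (Fin p) ℝ} {s t : ℝ} (hs0 : 0 ≤ s)
    (hM : ∀ i j, |M i j| ≤ s) (x : Fin p → ℝ) (hx : ∀ i, |x i| ≤ t) (i : Fin p) :
    |(M *ᵥ x) i| ≤ p * (s * t) := dp_abs_le (M i) x (hM i) hx hs0

/-! ### direction -/

/-- constant -/
noncomputable def cG (p : ℕ) : ℝ := (p + 2 * (p : ℝ) ^ 2 * p) * (2 * p) * (1 + (p : ℝ) ^ 2) ^ p

/-- **direction**: if the differences of `Y` are atomic for `V` and both laws have enough entropy at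
the scale `2 ^ (-R1)`, then `V` is near a flat of dimension `g` and `Y` is near its complement -/
theorem dirP (hgk : g + k = p) (hp : 1 ≤ p) (w : Ω → ℝ) (hw : ∀ ω, 0 ≤ w ω) (hm : ∑ ω, w ω = 1)
    (V : Ω → Fin p → ℝ) (hV : ∀ ω, w ω ≠ 0 → ∀ i, 0 ≤ V ω i ∧ V ω i < 1) (w' : Ω' → ℝ)
    (hw' : ∀ ω, 0 ≤ w' ω) (hm' : ∑ ω, w' ω = 1) (Y : Ω' → Fin p → ℝ)
    (hY : ∀ ω, w' ω ≠ 0 → ∀ i, 0 ≤ Y ω i ∧ Y ω i < 1) (R1 R : ℕ) {σ : ℝ} (hσ : 0 < σ) (hσ1 : p * σ < 1)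
    (hs : nasP w V w' Y R ≤ σ ^ 2)
    (hHV : 1 + (p * Real.logb 2 (6 * p) + ((g : ℝ) - 1) * R1) + p * σ * (p * R1) <
      Hh w (fun ω => cel R1 (V ω)))
    (hHY : 1 + (p * Real.logb 2 (6 * p) + ((k : ℝ) - 1) * R1) + σ * (p * R1) <
      Hh w' (fun ω => cel R1 (Y ω))) :
    ∃ Q, Prj p k Q ∧ StrP w V Q (cG p * 2 ^ (p * R1) * (1 / 2) ^ R) (p * σ) ∧
      StrP w' Y (1 - Q) (cG p * 2 ^ (p * R1) * (1 / 2) ^ R) σ := by
  classical
  have p0 : (1 : ℝ) ≤ p := by exact_mod_cast hp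
  obtain ⟨W, Λ, hC⟩ := coreP_exists w V hV w' Y hY R hσ.le
  obtain ⟨ω2, h02, h2⟩ := good_secondP w hw V w' hw' hm' Y R hσ hs
  choose c _ hc using fun i => naP_attained w V ((1 / 2) ^ R) (W i)
  set A : Ω → Prop := fun ω => ∀ i, |dp (V ω) (W i) - c i| ≤ (1 / 2) ^ R with hA
  set B : Ω' → Prop := fun ω => naP w V ((1 / 2) ^ R) (Y ω - Y ω2) ≤ σ with hB
  have hAp : Pw w (fun ω => ¬ A ω) ≤ p * σ := by
    refine (Pw_mono w hw (B := fun ω => ∃ i, (1 / 2) ^ R < |dp (V ω) (W i) - c i|) ?_).trans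
      ((Pw_exi w hw _).trans ?_)
    · intro ω _ hn
      rw [hA] at hn
      push Not at hn
      exact hn
    · have : ∀ i ∈ (univ : Finset (Fin p)), Pw w (fun ω => (1 / 2) ^ R < |dp (V ω) (W i) - c i|) ≤ σ := by
        intro i _
        rw [← hc i]
        exact hC.at' i
      refine (Finset.sum_le_sum this).trans ?_
      rw [Finset.sum_const, Finset.card_univ, Fintype.card_fin, nsmul_eq_mul]
  have hBp : Pw w' (fun ω => ¬ B ω) ≤ σ := by
    refine (Pw_mono w' hw' ?_).trans h2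
    intro ω _ hn
    rw [hB, not_le] at hn
    exact hn
  obtain ⟨ω0, h00, hA0⟩ := Pw_exists w (A := A) (by
    have := Pw_compl w hm A
    linarith)
  -- cross orthogonality
  have hWL : W.transpose * Λ = 1 := mul_eq_one_comm.1 hC.dual
  have hcross : ∀ ω, w ω ≠ 0 → A ω → ∀ ω', w' ω' ≠ 0 → B ω' →
      |dp (V ω - V ω0) (Y ω' - Y ω2)| ≤ 2 * p * (1 / 2) ^ R := by
    intro ω h0 hAω ω' h0' hBω
    have h3 := hC.mx ω' ω2 h0' h02 hBω
    have h4 : Y ω' - Y ω2 = ∑ i, dp (Λ i) (Y ω' - Y ω2) • W i := by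
      have h5 : W.transpose *ᵥ (Λ *ᵥ (Y ω' - Y ω2)) = Y ω' - Y ω2 := by
        rw [Matrix.mulVec_mulVec, hWL, Matrix.one_mulVec]
      conv_lhs => rw [← h5]
      funext j
      rw [Finset.sum_apply]
      show ∑ i, W i j * (Λ *ᵥ (Y ω' - Y ω2)) i = _
      refine Finset.sum_congr rfl fun i _ => ?_
      rw [Pi.smul_apply, smul_eq_mul, mulVec_apply_dp, mul_comm]
    rw [h4, dp_sum_right]
    refine (Finset.abs_sum_le_sum_abs _ _).trans ?_
    have h6 : ∀ i ∈ (univ : Finset (Fin p)),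
        |dp (V ω - V ω0) (dp (Λ i) (Y ω' - Y ω2) • W i)| ≤ 2 * (1 / 2) ^ R := by
      intro i _
      rw [dp_smul_right, abs_mul, dp_sub_left]
      have h7 : |dp (V ω) (W i) - dp (V ω0) (W i)| ≤ 2 * (1 / 2) ^ R := by
        have g1 := abs_le.1 (hAω i)
        have g2 := abs_le.1 (hA0 i)
        rw [abs_le]
        constructor <;> linarith
      calc |dp (Λ i) (Y ω' - Y ω2)| * |dp (V ω) (W i) - dp (V ω0) (W i)| ≤
          1 * (2 * (1 / 2) ^ R) := mul_le_mul (h3 i) h7 (abs_nonneg _) zero_le_one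
        _ = _ := one_mul _
    refine (Finset.sum_le_sum h6).trans (le_of_eq ?_)
    rw [Finset.sum_const, Finset.card_univ, Fintype.card_fin, nsmul_eq_mul]
    ring
  set t0 : ℝ := 2 * p * (1 / 2) ^ R with ht0
  have ht00 : 0 ≤ t0 := by positivity
  obtain ⟨f, hf, hfc⟩ := frame w hw hm R1 V hV hp (V ω0) (hV ω0 h00) A hAp g hHV
  obtain ⟨h, hh, hhc⟩ := frame w' hw' hm' R1 Y hY hp (Y ω2) (hY ω2 h02) B hBp k hHY
  set Γ : ℝ := gam p R1 with hΓ
  have hΓ1 : 1 ≤ Γ := gam_one p R1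
  have hΓg : (0 : ℝ) ≤ Γ ^ g := by positivity
  have hΓk : (0 : ℝ) ≤ Γ ^ k := by positivity
  have hΓp : Γ ^ g * Γ ^ k = Γ ^ p := by rw [← pow_add, hgk]
  have hle : ∀ m : ℕ, m ≤ p → Γ ^ m ≤ Γ ^ p := fun m hm => pow_le_pow_right₀ hΓ1 hm
  have k1 : ∀ ω', w' ω' ≠ 0 → B ω' → ∀ b, |dp (f b) (Y ω' - Y ω2)| ≤ Γ ^ g * t0 := by
    intro ω' h0' hB' b
    rw [dp_comm]
    refine hfc _ t0 ht00 (fun ω h0 hA' => ?_) b
    rw [dp_comm]
    exact hcross ω h0 hA' ω' h0' hB'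
  have k2 : ∀ ω, w ω ≠ 0 → A ω → ∀ c, |dp (h c) (V ω - V ω0)| ≤ Γ ^ k * t0 := by
    intro ω h0 hA' c
    rw [dp_comm]
    exact hhc _ t0 ht00 (fun ω' h0' hB' => hcross ω h0 hA' ω' h0' hB') c
  have k3 : ∀ b c, |dp (f b) (h c)| ≤ Γ ^ p * t0 := by
    intro b c
    have := hhc (f b) (Γ ^ g * t0) (by positivity) (fun ω' h0' hB' => k1 ω' h0' hB' b) c
    rw [← hΓp]
    calc |dp (f b) (h c)| ≤ Γ ^ k * (Γ ^ g * t0) := this
      _ = Γ ^ g * Γ ^ k * t0 := by ring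
  have hrad : cG p * 2 ^ (p * R1) * (1 / 2) ^ R = (p + 2 * (p : ℝ) ^ 2 * p) * (Γ ^ p * t0) := by
    rw [hΓ, ht0]
    unfold cG gam
    rw [mul_pow, ← pow_mul, mul_comm R1 p]
    ring
  have hT : 0 ≤ Γ ^ p * t0 := by positivity
  have hprF : ∀ (n : ℕ) (F : Fin n → Fin p → ℝ), ON F → ∀ (x : Fin p → ℝ) (s : ℝ), 0 ≤ s →
      (∀ b, |dp (F b) x| ≤ s) → ∀ i, |(prF F *ᵥ x) i| ≤ n * s := by
    intro n F hF x s hs0 hx i
    rw [prF_mulVec, Finset.sum_apply]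
    refine (Finset.abs_sum_le_sum_abs _ _).trans ?_
    have : ∀ b ∈ (univ : Finset (Fin n)), |(dp (F b) x • F b) i| ≤ s := by
      intro b _
      rw [Pi.smul_apply, smul_eq_mul, abs_mul]
      calc |dp (F b) x| * |F b i| ≤ s * 1 :=
            mul_le_mul (hx b) (hF.abs_le b i) (abs_nonneg _) hs0
        _ = s := mul_one _
    refine (Finset.sum_le_sum this).trans ?_
    rw [Finset.sum_const, Finset.card_univ, Fintype.card_fin, nsmul_eq_mul]
  have hgp : (g : ℝ) ≤ p := by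
    have : g ≤ p := by omega
    exact_mod_cast this
  have hkp : (k : ℝ) ≤ p := by
    have : k ≤ p := by omega
    exact_mod_cast this
  refine ⟨prF h, prF_prj hh, ?_, ?_⟩
  · refine ⟨V ω0, (Pw_mono w hw ?_).trans hAp⟩
    rintro ω h0 ⟨i, hi⟩ hA'
    have h5 := hprF k h hh (V ω - V ω0) (Γ ^ k * t0) (by positivity) (k2 ω h0 hA') i
    have h6 : (k : ℝ) * (Γ ^ k * t0) ≤ p * (Γ ^ p * t0) :=
      mul_le_mul hkp (mul_le_mul_of_nonneg_right (hle k (by omega)) ht00) (by positivity)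
        (by positivity)
    rw [hrad] at hi
    have h7 : (0 : ℝ) ≤ 2 * (p : ℝ) ^ 2 * p * (Γ ^ p * t0) := by positivity
    nlinarith
  · refine ⟨Y ω2, (Pw_mono w' hw' ?_).trans hBp⟩
    rintro ω h0 ⟨i, hi⟩ hB'
    -- the complement
    have hsmall : ∀ b i, |(prF h *ᵥ f b) i| ≤ k * (Γ ^ p * t0) := by
      intro b i
      exact hprF k h hh (f b) (Γ ^ p * t0) hT (fun c => by rw [dp_comm]; exact k3 b c) i
    have hnear := near_of_small (prF_prj hh) hgk f hf (s := p * (Γ ^ p * t0)) (by positivity)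
      (fun b i => (hsmall b i).trans (mul_le_mul_of_nonneg_right hkp hT))
    have hx1 : ∀ j, |(Y ω - Y ω2) j| ≤ 1 := by
      intro j
      have h1 := hY ω h0 j
      have h2 := hY ω2 h02 j
      rw [Pi.sub_apply, abs_le]
      constructor <;> linarith [h1.1, h1.2, h2.1, h2.2]
    have e1 : (1 - prF h) *ᵥ (Y ω - Y ω2) = prF f *ᵥ (Y ω - Y ω2) +
        (1 - prF h - prF f) *ᵥ (Y ω - Y ω2) := by
      rw [← Matrix.add_mulVec]
      congr 1
      abel
    have h5 := hprF g f hf (Y ω - Y ω2) (Γ ^ g * t0) (by positivity) (k1 ω h0 hB') i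
    have h6 : (g : ℝ) * (Γ ^ g * t0) ≤ p * (Γ ^ p * t0) :=
      mul_le_mul hgp (mul_le_mul_of_nonneg_right (hle g (by omega)) ht00) (by positivity)
        (by positivity)
    have h7 := mulVec_abs_le (M := 1 - prF h - prF f) (s := 2 * p * (p * (Γ ^ p * t0))) (t := 1)
      (by positivity) hnear (Y ω - Y ω2) hx1 i
    rw [e1, Pi.add_apply, hrad] at hi
    have h8 := abs_add_le ((prF f *ᵥ (Y ω - Y ω2)) i) (((1 - prF h - prF f) *ᵥ (Y ω - Y ω2)) i)
    have h9 : (p : ℝ) * (2 * p * (p * (Γ ^ p * t0)) * 1) = 2 * (p : ℝ) ^ 2 * p * (Γ ^ p * t0) := by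
      ring
    rw [h9] at h7
    have h10 : (p + 2 * (p : ℝ) ^ 2 * p) * (Γ ^ p * t0) =
        p * (Γ ^ p * t0) + 2 * (p : ℝ) ^ 2 * p * (Γ ^ p * t0) := by ring
    linarith

/-! ### uniqueness -/

theorem StrP.near {w : Ω → ℝ} (hw : ∀ ω, 0 ≤ w ω) {V : Ω → Fin p → ℝ}
    {Q : Matrix (Fin p) (Fin p) ℝ} {r : ℝ} {E : Ω → Prop} {c : Fin p → ℝ}
    (hE : ∀ ω, w ω ≠ 0 → E ω → ∀ i, |(Q *ᵥ (V ω - c)) i| ≤ r) {ω0 : Ω} (h00 : w ω0 ≠ 0) (hE0 : E ω0)
    {ω : Ω} (h0 : w ω ≠ 0) (hω : E ω) (i : Fin p) : |(Q *ᵥ (V ω - V ω0)) i| ≤ 2 * r := by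
  have e : V ω - V ω0 = (V ω - c) - (V ω0 - c) := by abel
  rw [e, Matrix.mulVec_sub, Pi.sub_apply]
  have h1 := abs_le.1 (hE ω h0 hω i)
  have h2 := abs_le.1 (hE ω0 h00 hE0 i)
  rw [abs_le]
  constructor <;> linarith

/-- **uniqueness** -/
theorem uniP (hgk : g + k = p) (hp : 1 ≤ p) (w : Ω → ℝ) (hw : ∀ ω, 0 ≤ w ω) (hm : ∑ ω, w ω = 1)
    (V : Ω → Fin p → ℝ) (hV : ∀ ω, w ω ≠ 0 → ∀ i, 0 ≤ V ω i ∧ V ω i < 1) (R1 : ℕ) {e : ℝ}
    (he : 2 * e < 1)
    (hHV : 1 + (p * Real.logb 2 (6 * p) + ((g : ℝ) - 1) * R1) + 2 * e * (p * R1) <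
      Hh w (fun ω => cel R1 (V ω)))
    {Q Q' : Matrix (Fin p) (Fin p) ℝ} (hQ : Prj p k Q) (hQ' : Prj p k Q') {r : ℝ} (hr : 0 ≤ r)
    (h1 : StrP w V Q r e) (h2 : StrP w V Q' r e) (i j : Fin p) :
    |Q i j - Q' i j| ≤ 8 * p * gam p R1 ^ g * r := by
  classical
  obtain ⟨c, hc⟩ := h1
  obtain ⟨c', hc'⟩ := h2
  set E : Ω → Prop := fun ω => (∀ i, |(Q *ᵥ (V ω - c)) i| ≤ r) ∧ ∀ i, |(Q' *ᵥ (V ω - c')) i| ≤ r
    with hE
  have hEp : Pw w (fun ω => ¬ E ω) ≤ 2 * e := by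
    refine (Pw_mono w hw (B := fun ω => (∃ i, r < |(Q *ᵥ (V ω - c)) i|) ∨
      ∃ i, r < |(Q' *ᵥ (V ω - c')) i|) ?_).trans ((Pw_or w hw _ _).trans (by linarith))
    intro ω _ hn
    simp only [hE, not_and_or, not_forall, not_le] at hn
    exact hn
  obtain ⟨ω0, h00, hE0⟩ := Pw_exists w (A := E) (by
    have := Pw_compl w hm E
    linarith)
  obtain ⟨f, hf, hfc⟩ := frame w hw hm R1 V hV hp (V ω0) (hV ω0 h00) E hEp g hHV
  have hΓ : (0 : ℝ) ≤ gam p R1 ^ g := pow_nonneg (zero_le_one.trans (gam_one p R1)) g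
  have key : ∀ (P : Matrix (Fin p) (Fin p) ℝ) (d : Fin p → ℝ), Prj p k P →
      (∀ ω, w ω ≠ 0 → E ω → ∀ i, |(P *ᵥ (V ω - d)) i| ≤ r) →
      |(1 - P - prF f) i j| ≤ 2 * p * (gam p R1 ^ g * (2 * r)) := by
    intro P d hP hPE
    refine near_of_small hP hgk f hf (by positivity) (fun b i => ?_) i j
    rw [mulVec_apply_dp]
    refine hfc (P i) (2 * r) (by linarith) (fun ω h0 hω => ?_) b
    exact StrP.near hw hPE h00 hE0 h0 hω i
  have g1 := abs_le.1 (key Q c hQ (fun ω _ hω => hω.1))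
  have g2 := abs_le.1 (key Q' c' hQ' (fun ω _ hω => hω.2))
  simp only [Matrix.sub_apply] at g1 g2
  rw [abs_le]
  constructor <;> nlinarith [g1.1, g1.2, g2.1, g2.2]

/-! ### end -/

/-- **end**: a strip is not atomic for vectors with a component along the flat -/
theorem endP (hgk : g + k = p) (hp : 1 ≤ p) (w : Ω → ℝ) (hw : ∀ ω, 0 ≤ w ω) (hm : ∑ ω, w ω = 1)
    (V : Ω → Fin p → ℝ) (hV : ∀ ω, w ω ≠ 0 → ∀ i, 0 ≤ V ω i ∧ V ω i < 1) (R1 : ℕ) {e : ℝ}
    (he : 2 * e < 1)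
    (hHV : 1 + (p * Real.logb 2 (6 * p) + ((g : ℝ) - 1) * R1) + 2 * e * (p * R1) <
      Hh w (fun ω => cel R1 (V ω)))
    {Q : Matrix (Fin p) (Fin p) ℝ} (hQ : Prj p k Q) {r ρ M : ℝ} (hr : 0 ≤ r) (hρ : 0 ≤ ρ)
    (hM : 0 ≤ M) (h1 : StrP w V Q r e) (U : Fin p → ℝ) (hU : ∀ i, |U i| ≤ M)
    (h2 : naP w V ρ U ≤ e) (i : Fin p) :
    |((1 - Q) *ᵥ U) i| ≤ 2 * p * gam p R1 ^ g * ρ + 4 * p ^ 2 * gam p R1 ^ g * M * r := by
  classical
  obtain ⟨c, hc⟩ := h1
  obtain ⟨x0, -, hx0⟩ := naP_attained w V ρ U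
  rw [hx0] at h2
  set E : Ω → Prop := fun ω => (∀ i, |(Q *ᵥ (V ω - c)) i| ≤ r) ∧ |dp (V ω) U - x0| ≤ ρ with hE
  have hEp : Pw w (fun ω => ¬ E ω) ≤ 2 * e := by
    refine (Pw_mono w hw (B := fun ω => (∃ i, r < |(Q *ᵥ (V ω - c)) i|) ∨
      ρ < |dp (V ω) U - x0|) ?_).trans ((Pw_or w hw _ _).trans (by linarith))
    intro ω _ hn
    simp only [hE, not_and_or, not_forall, not_le] at hn
    exact hn
  obtain ⟨ω0, h00, hE0⟩ := Pw_exists w (A := E) (by
    have := Pw_compl w hm E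
    linarith)
  obtain ⟨f, hf, hfc⟩ := frame w hw hm R1 V hV hp (V ω0) (hV ω0 h00) E hEp g hHV
  have hΓ : (0 : ℝ) ≤ gam p R1 ^ g := pow_nonneg (zero_le_one.trans (gam_one p R1)) g
  have hnear : ∀ i j, |(1 - Q - prF f) i j| ≤ 2 * p * (gam p R1 ^ g * (2 * r)) := by
    refine near_of_small hQ hgk f hf (by positivity) (fun b i => ?_)
    rw [mulVec_apply_dp]
    refine hfc (Q i) (2 * r) (by linarith) (fun ω h0 hω => ?_) b
    exact StrP.near hw (E := E) (c := c) (fun ω _ hω => hω.1) h00 hE0 h0 hω i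
  have hfU : ∀ b, |dp U (f b)| ≤ gam p R1 ^ g * (2 * ρ) := by
    refine hfc U (2 * ρ) (by linarith) (fun ω h0 hω => ?_)
    rw [dp_comm, dp_sub_left]
    have g1 := abs_le.1 hω.2
    have g2 := abs_le.1 hE0.2
    rw [abs_le]
    constructor <;> linarith
  have e1 : (1 - Q) *ᵥ U = prF f *ᵥ U + (1 - Q - prF f) *ᵥ U := by
    rw [← Matrix.add_mulVec]
    congr 1
    abel
  rw [e1, Pi.add_apply]
  refine (abs_add_le _ _).trans (add_le_add ?_ ?_)
  · rw [prF_mulVec, Finset.sum_apply]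
    refine (Finset.abs_sum_le_sum_abs _ _).trans ?_
    have : ∀ b ∈ (univ : Finset (Fin g)), |(dp (f b) U • f b) i| ≤ gam p R1 ^ g * (2 * ρ) := by
      intro b _
      rw [Pi.smul_apply, smul_eq_mul, abs_mul, dp_comm]
      calc |dp U (f b)| * |f b i| ≤ gam p R1 ^ g * (2 * ρ) * 1 :=
            mul_le_mul (hfU b) (hf.abs_le b i) (abs_nonneg _) (by positivity)
        _ = _ := mul_one _
    refine (Finset.sum_le_sum this).trans ?_
    rw [Finset.sum_const, Finset.card_univ, Fintype.card_fin, nsmul_eq_mul]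
    have hgp : (g : ℝ) ≤ p := by
      have : g ≤ p := by omega
      exact_mod_cast this
    calc (g : ℝ) * (gam p R1 ^ g * (2 * ρ)) ≤ p * (gam p R1 ^ g * (2 * ρ)) :=
          mul_le_mul_of_nonneg_right hgp (by positivity)
      _ = _ := by ring
  · refine (mulVec_abs_le (by positivity) hnear U hU i).trans (le_of_eq ?_)
    ring

end Pool.Agent.Helper46.WF
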