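import Pool.Agent.Helper46.WF.Strip

/-!
# The strip lemma in every dimension

Random vectors `V`, `Y` in the unit cube of dimension `p`; pairing = dot product. If for most pairs
of independent copies of `Y` the number `V ⬝ (Y1 - Y2)` is concentrated on the scale `2^(-R)`, then
the entropies of the `R`-digit cells of `V` and `Y` have a sum of at most `p R + C + small * R`.
-/

set_option autoImplicit false

namespace Pool.Agent.Helper46.WF

open Finset Pool.Agent.Helper69.RK Pool.Agent.Helper61.GL MeasureTheory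

variable {Ω Ω' : Type} [Fintype Ω] [Fintype Ω'] {p : ℕ}

/-- dot product -/
def dp (v u : Fin p → ℝ) : ℝ := ∑ i, v i * u i

theorem dp_sub_left (v v' u : Fin p → ℝ) : dp (v - v') u = dp v u - dp v' u := by
  unfold dp
  rw [← Finset.sum_sub_distrib]
  exact Finset.sum_congr rfl fun i _ => by simp only [Pi.sub_apply]; ring

theorem dp_comm (v u : Fin p → ℝ) : dp v u = dp u v := by
  unfold dp
  exact Finset.sum_congr rfl fun j _ => mul_comm _ _

theorem Pw_exi {ι : Type} [Fintype ι] (w : Ω → ℝ) (hw : ∀ ω, 0 ≤ w ω) (B : ι → Ω → Prop) :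
    Pw w (fun ω => ∃ i, B i ω) ≤ ∑ i, Pw w (B i) := by
  classical
  unfold Pw
  rw [Finset.sum_comm]
  refine Finset.sum_le_sum fun ω _ => ?_
  have hnn : ∀ i, 0 ≤ if B i ω then w ω else 0 := by
    intro i
    split_ifs
    · exact hw ω
    · exact le_rfl
  by_cases h : ∃ i, B i ω
  · rw [if_pos h]
    obtain ⟨i, hi⟩ := h
    have h4 := Finset.single_le_sum (f := fun i => if B i ω then w ω else 0)
      (fun j _ => hnn j) (Finset.mem_univ i)
    simp only [if_pos hi] at h4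
    exact h4
  · rw [if_neg h]
    exact Finset.sum_nonneg fun i _ => hnn i

/-- unit cube with the corner `k` -/
def QkP (k : Fin p → ℤ) : Set (Fin p → ℝ) := Set.pi Set.univ (fun i => Set.Ico (k i : ℝ) (k i + 1))

theorem QkP_vol (k : Fin p → ℤ) : volume (QkP k) = 1 := by
  unfold QkP
  rw [Real.volume_pi_Ico]
  simp

theorem QkP_meas (k : Fin p → ℤ) : MeasurableSet (QkP k) :=
  MeasurableSet.pi Set.countable_univ fun _ _ => measurableSet_Ico

theorem QkP_disj {k k' : Fin p → ℤ} (h : k ≠ k') : Disjoint (QkP k) (QkP k') := by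
  rw [Set.disjoint_left]
  intro z hz hz'
  apply h
  funext i
  have h1 := hz i (Set.mem_univ i)
  have h2 := hz' i (Set.mem_univ i)
  have e1 : ⌊z i⌋ = k i := Int.floor_eq_iff.2 ⟨h1.1, h1.2⟩
  have e2 : ⌊z i⌋ = k' i := Int.floor_eq_iff.2 ⟨h2.1, h2.2⟩
  rw [← e1, e2]

/-- real vector of an integer vector -/
def ivP (k : Fin p → ℤ) : Fin p → ℝ := fun i => (k i : ℝ)

/-- integer points in a parallelepiped given by a matrix -/
theorem count_mat (A : Matrix (Fin p) (Fin p) ℝ) (hD : A.det ≠ 0) (c L m : Fin p → ℝ)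
    (hL : ∀ i, 0 ≤ L i) (hm : ∀ i, ∑ j, |A i j| ≤ m i) (S : Finset (Fin p → ℤ))
    (hS : ∀ k ∈ S, ∀ i, |dp (A i) (ivP k) - c i| ≤ L i) :
    (S.card : ℝ) ≤ (∏ i, (2 * (L i + m i))) / |A.det| := by
  classical
  have hm0 : ∀ i, 0 ≤ m i := fun i => (Finset.sum_nonneg fun j _ => abs_nonneg _).trans (hm i)
  have happ : ∀ (z : Fin p → ℝ) (i : Fin p), Matrix.toLin' A z i = dp (A i) z := by
    intro z i
    rw [Matrix.toLin'_apply]
    rfl
  set a : Fin p → ℝ := fun i => c i - (L i + m i) with ha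
  set b : Fin p → ℝ := fun i => c i + (L i + m i) with hb
  have hsub : (⋃ k ∈ S, QkP k) ⊆ (Matrix.toLin' A) ⁻¹' (Set.Icc a b) := by
    intro z hz
    simp only [Set.mem_iUnion] at hz
    obtain ⟨k, hk, hz⟩ := hz
    have key : ∀ i, |dp (A i) z - c i| ≤ L i + m i := by
      intro i
      have h1 := hS k hk i
      have h2 : |dp (A i) z - dp (A i) (ivP k)| ≤ m i := by
        refine le_trans ?_ (hm i)
        unfold dp
        rw [← Finset.sum_sub_distrib]
        refine (Finset.abs_sum_le_sum_abs _ _).trans (Finset.sum_le_sum fun j _ => ?_)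
        have hzj := hz j (Set.mem_univ j)
        rw [← mul_sub, abs_mul]
        have h3 : |z j - ivP k j| ≤ 1 := by
          unfold ivP
          rw [abs_le]
          constructor
          · linarith [hzj.1]
          · linarith [hzj.2]
        calc |A i j| * |z j - ivP k j| ≤ |A i j| * 1 :=
              mul_le_mul_of_nonneg_left h3 (abs_nonneg _)
          _ = |A i j| := mul_one _
      have e : dp (A i) z - c i = (dp (A i) (ivP k) - c i) + (dp (A i) z - dp (A i) (ivP k)) := by ring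
      rw [e]
      exact (abs_add_le _ _).trans (add_le_add h1 h2)
    rw [Set.mem_preimage, Set.mem_Icc]
    constructor
    · intro i
      rw [happ, ha]
      have := (abs_le.1 (key i)).1
      show c i - (L i + m i) ≤ dp (A i) z
      linarith
    · intro i
      rw [happ, hb]
      have := (abs_le.1 (key i)).2
      show dp (A i) z ≤ c i + (L i + m i)
      linarith
  have hvol := measure_mono (μ := volume) hsub
  rw [measure_biUnion_finset (fun k _ k' _ h => QkP_disj h) (fun k _ => QkP_meas k)] at hvol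
  simp only [QkP_vol, Finset.sum_const, nsmul_eq_mul, mul_one] at hvol
  have hdet : LinearMap.det (Matrix.toLin' A) = A.det := LinearMap.det_toLin' A
  rw [Measure.addHaar_preimage_linearMap (μ := volume) (by rw [hdet]; exact hD), hdet,
    Real.volume_Icc_pi] at hvol
  have e0 : ∀ i, b i - a i = 2 * (L i + m i) := by
    intro i
    rw [ha, hb]
    ring
  simp only [e0] at hvol
  have hpos : ∀ i, 0 ≤ 2 * (L i + m i) := fun i => by
    have := hL i
    have := hm0 i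
    positivity
  rw [← ENNReal.ofReal_prod_of_nonneg (fun i _ => hpos i), ← ENNReal.ofReal_mul (by positivity)]
    at hvol
  have hprod : 0 ≤ ∏ i, (2 * (L i + m i)) := Finset.prod_nonneg fun i _ => hpos i
  have h5 : (S.card : ℝ) ≤ |(A.det)⁻¹| * ∏ i, (2 * (L i + m i)) := by
    have h6 : ENNReal.ofReal (S.card : ℝ) ≤
        ENNReal.ofReal (|(A.det)⁻¹| * ∏ i, (2 * (L i + m i))) := by
      rw [ENNReal.ofReal_natCast]
      exact hvol
    exact (ENNReal.ofReal_le_ofReal_iff (by positivity)).1 h6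
  rw [abs_inv] at h5
  refine h5.trans (le_of_eq ?_)
  rw [div_eq_inv_mul]

/-! ### cells -/

theorem cel_dp (R : ℕ) (a v : Fin p → ℝ) :
    |dp a (ivP (cel R v)) - 2 ^ R * dp a v| ≤ ∑ j, |a j| := by
  unfold dp
  rw [Finset.mul_sum, ← Finset.sum_sub_distrib]
  refine (Finset.abs_sum_le_sum_abs _ _).trans (Finset.sum_le_sum fun j _ => ?_)
  have e : a j * ivP (cel R v) j - 2 ^ R * (a j * v j)
      = a j * ((⌊(2 : ℝ) ^ R * v j⌋ : ℤ) - 2 ^ R * v j) := by
    unfold ivP cel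
    ring
  rw [e, abs_mul]
  have h3 : |((⌊(2 : ℝ) ^ R * v j⌋ : ℤ) : ℝ) - 2 ^ R * v j| ≤ 1 := by
    rw [abs_le]
    have h1 := Int.floor_le ((2 : ℝ) ^ R * v j)
    have h2 := Int.lt_floor_add_one ((2 : ℝ) ^ R * v j)
    constructor <;> linarith
  calc |a j| * _ ≤ |a j| * 1 := mul_le_mul_of_nonneg_left h3 (abs_nonneg _)
    _ = |a j| := mul_one _

/-- all cells in the unit cube -/
noncomputable def allcP (p R : ℕ) : Finset (Fin p → ℤ) :=
  Fintype.piFinset (fun _ => Finset.Ico (0 : ℤ) (2 ^ R))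

theorem allcP_card (R : ℕ) : ((allcP p R).card : ℝ) = 2 ^ (p * R) := by
  unfold allcP
  rw [Fintype.card_piFinset]
  simp only [Int.card_Ico, sub_zero, Finset.prod_const, Finset.card_univ, Fintype.card_fin]
  have : ((2 : ℤ) ^ R).toNat = 2 ^ R := by
    have : ((2 : ℤ) ^ R) = ((2 ^ R : ℕ) : ℤ) := by push_cast; rfl
    rw [this, Int.toNat_natCast]
  rw [this]
  push_cast
  rw [← pow_mul, mul_comm]

theorem cel_memP {R : ℕ} {v : Fin p → ℝ} (h : ∀ i, 0 ≤ v i ∧ v i < 1) : cel R v ∈ allcP p R := by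
  unfold allcP
  rw [Fintype.mem_piFinset]
  intro i
  rw [Finset.mem_Ico]
  have p' : (0 : ℝ) < 2 ^ R := by positivity
  constructor
  · exact Int.floor_nonneg.2 (mul_nonneg p'.le (h i).1)
  · show ⌊(2 : ℝ) ^ R * v i⌋ < 2 ^ R
    rw [Int.floor_lt]
    push_cast
    calc (2 : ℝ) ^ R * v i < 2 ^ R * 1 := mul_lt_mul_of_pos_left (h i).2 p'
      _ = 2 ^ R := mul_one _

/-- entropy of the cells of `V` if `V` is in a parallelepiped up to the probability `δ` -/
theorem Hh_mat (w : Ω → ℝ) (hw : ∀ ω, 0 ≤ w ω) (hm : ∑ ω, w ω = 1) (R : ℕ) (V : Ω → Fin p → ℝ)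
    (hV : ∀ ω, w ω ≠ 0 → ∀ i, 0 ≤ V ω i ∧ V ω i < 1) (A : Matrix (Fin p) (Fin p) ℝ)
    (hD : A.det ≠ 0) (c ρ m : Fin p → ℝ) (hρ : ∀ i, 0 ≤ ρ i) (hA : ∀ i, ∑ j, |A i j| ≤ m i)
    {N δ : ℝ} (E : Ω → Prop) (hE : ∀ ω, w ω ≠ 0 → E ω → ∀ i, |dp (A i) (V ω) - c i| ≤ ρ i)
    (hδ : Pw w (fun ω => ¬ E ω) ≤ δ) (hN1 : 1 ≤ N)
    (hN : (∏ i, (2 * (2 ^ R * ρ i + 2 * m i))) / |A.det| ≤ N) :
    Hh w (fun ω => cel R (V ω)) ≤ 1 + Real.logb 2 N + δ * (p * R) := by
  classical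
  have hm0 : ∀ i, 0 ≤ m i := fun i => (Finset.sum_nonneg fun j _ => abs_nonneg _).trans (hA i)
  have pp : (0 : ℝ) < 2 ^ R := by positivity
  obtain ⟨E', hE'⟩ : ∃ E' : Ω → Prop, E' = fun ω => w ω ≠ 0 ∧ E ω := ⟨_, rfl⟩
  have hδ' : Pw w (fun ω => ¬ E' ω) ≤ δ := by
    refine (Pw_mono w hw ?_).trans hδ
    intro ω h0 h1 h2
    rw [hE'] at h1
    exact h1 ⟨h0, h2⟩
  have hcard := count_mat A hD (fun i => 2 ^ R * c i) (fun i => 2 ^ R * ρ i + m i) m
    (fun i => by have := hρ i; have := hm0 i; positivity) hA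
    ((univ.filter E').image (fun ω => cel R (V ω))) (by
      intro k hk i
      obtain ⟨ω, hω, rfl⟩ := Finset.mem_image.1 hk
      have h1 := (Finset.mem_filter.1 hω).2
      rw [hE'] at h1
      have h2 := hE ω h1.1 h1.2 i
      have e : dp (A i) (ivP (cel R (V ω))) - 2 ^ R * c i
          = (dp (A i) (ivP (cel R (V ω))) - 2 ^ R * dp (A i) (V ω))
            + 2 ^ R * (dp (A i) (V ω) - c i) := by ring
      rw [e]
      refine (abs_add_le _ _).trans ?_
      rw [abs_mul, abs_of_pos pp]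
      have h3 := (cel_dp R (A i) (V ω)).trans (hA i)
      have h4 := mul_le_mul_of_nonneg_left h2 pp.le
      linarith)
  have hcard' : (((univ.filter E').image (fun ω => cel R (V ω))).card : ℝ) ≤ N := by
    refine hcard.trans (le_trans (le_of_eq ?_) hN)
    congr 1
    refine Finset.prod_congr rfl fun i _ => ?_
    ring
  have h := Hh_exc w hw hm (fun ω => cel R (V ω)) E' ((univ.filter E').image (fun ω => cel R (V ω)))
    (allcP p R) (N1 := N) (N2 := 2 ^ (p * R)) (δ := δ) hN1 (one_le_pow₀ (by norm_num))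
    (fun ω _ h => Finset.mem_image_of_mem _ (Finset.mem_filter.2 ⟨Finset.mem_univ ω, h⟩))
    hcard' (fun ω h0 => cel_memP (hV ω h0)) (le_of_eq (allcP_card R)) hδ'
  rw [logb_two_pow] at h
  push_cast at h
  exact h

/-! ### non-atomicity -/

/-- non-atomicity of `V ⬝ U` on the scale `ρ` -/
noncomputable def naP (w : Ω → ℝ) (V : Ω → Fin p → ℝ) (ρ : ℝ) (U : Fin p → ℝ) : ℝ :=
  ⨅ c : ℝ, Pw w (fun ω => ρ < |dp (V ω) U - c|)

theorem naP_attained (w : Ω → ℝ) (V : Ω → Fin p → ℝ) (ρ : ℝ) (U : Fin p → ℝ) :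
    ∃ c, (∀ c', Pw w (fun ω => ρ < |dp (V ω) U - c|) ≤ Pw w (fun ω => ρ < |dp (V ω) U - c'|)) ∧
      naP w V ρ U = Pw w (fun ω => ρ < |dp (V ω) U - c|) := by
  have hf : (Set.range (fun c : ℝ => Pw w (fun ω => ρ < |dp (V ω) U - c|))).Finite := by
    have : Set.range (fun c : ℝ => Pw w (fun ω => ρ < |dp (V ω) U - c|)) ⊆
        Set.range (fun A : Set Ω => Pw w (fun ω => ω ∈ A)) := by
      rintro _ ⟨c, rfl⟩
      exact ⟨{ω | ρ < |dp (V ω) U - c|}, rfl⟩
    exact (Set.finite_range _).subset this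
  obtain ⟨c, hc⟩ := exists_min_of_range hf
  refine ⟨c, hc, le_antisymm ?_ ?_⟩
  · exact ciInf_le ⟨Pw w (fun ω => ρ < |dp (V ω) U - c|), by
      rintro _ ⟨c', rfl⟩
      exact hc c'⟩ c
  · exact le_ciInf hc

theorem naP_le (w : Ω → ℝ) (V : Ω → Fin p → ℝ) (ρ : ℝ) (U : Fin p → ℝ) (c : ℝ) :
    naP w V ρ U ≤ Pw w (fun ω => ρ < |dp (V ω) U - c|) := by
  obtain ⟨c0, h1, h2⟩ := naP_attained w V ρ U
  rw [h2]
  exact h1 c

theorem naP_nonneg (w : Ω → ℝ) (hw : ∀ ω, 0 ≤ w ω) (V : Ω → Fin p → ℝ) (ρ : ℝ) (U : Fin p → ℝ) :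
    0 ≤ naP w V ρ U := by
  obtain ⟨c0, h1, h2⟩ := naP_attained w V ρ U
  rw [h2]
  exact Pw_nonneg w hw _

theorem naP_le_one (w : Ω → ℝ) (hw : ∀ ω, 0 ≤ w ω) (hm : ∑ ω, w ω = 1) (V : Ω → Fin p → ℝ) (ρ : ℝ)
    (U : Fin p → ℝ) : naP w V ρ U ≤ 1 := by
  obtain ⟨c0, h1, h2⟩ := naP_attained w V ρ U
  rw [h2]
  exact Pw_le_one w hw hm _

/-! ### the extremal frame -/

/-- output: a matrix with the rows `W i` and its dual frame `Λ` -/
structure CoreP (w : Ω → ℝ) (V : Ω → Fin p → ℝ) (w' : Ω' → ℝ) (Y : Ω' → Fin p → ℝ) (R : ℕ) (σ : ℝ)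
    (W Λ : Matrix (Fin p) (Fin p) ℝ) : Prop where
  lo : (1 : ℝ) ≤ 2 ^ (p * R) * |W.det|
  hi : ∀ i j, |W i j| ≤ 1
  at' : ∀ i, naP w V ((1 / 2) ^ R) (W i) ≤ σ
  dual : Λ * W.transpose = 1
  det : Λ.det = (W.det)⁻¹
  sz : ∀ i j, |Λ i j| ≤ 2 ^ R
  mx : ∀ ω1 ω2, w' ω1 ≠ 0 → w' ω2 ≠ 0 → naP w V ((1 / 2) ^ R) (Y ω1 - Y ω2) ≤ σ →
    ∀ i, |dp (Λ i) (Y ω1 - Y ω2)| ≤ 1

theorem coreP_exists (w : Ω → ℝ) (V : Ω → Fin p → ℝ)
    (hV : ∀ ω, w ω ≠ 0 → ∀ i, 0 ≤ V ω i ∧ V ω i < 1) (w' : Ω' → ℝ) (Y : Ω' → Fin p → ℝ)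
    (hY : ∀ ω, w' ω ≠ 0 → ∀ i, 0 ≤ Y ω i ∧ Y ω i < 1) (R : ℕ) {σ : ℝ} (hσ : 0 ≤ σ) :
    ∃ W Λ, CoreP w V w' Y R σ W Λ := by
  classical
  have pos : (0 : ℝ) < (1 / 2) ^ R := by positivity
  have p1 : ((1 : ℝ) / 2) ^ R ≤ 1 := pow_le_one₀ (by norm_num) (by norm_num)
  have hpr : (2 : ℝ) ^ R * (1 / 2) ^ R = 1 := by rw [← mul_pow]; norm_num
  set e : Fin p → Fin p → ℝ := fun j => Pi.single j ((1 / 2) ^ R) with he
  set 𝒢 : Finset (Fin p → ℝ) := ((univ : Finset (Ω' × Ω')).filter (fun q => w' q.1 ≠ 0 ∧ w' q.2 ≠ 0 ∧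
    naP w V ((1 / 2) ^ R) (Y q.1 - Y q.2) ≤ σ)).image (fun q => Y q.1 - Y q.2) ∪
      univ.image e with hG
  have heG : ∀ j, e j ∈ 𝒢 := by
    intro j
    rw [hG, Finset.mem_union]
    right
    exact Finset.mem_image_of_mem e (Finset.mem_univ j)
  have hna : ∀ W ∈ 𝒢, naP w V ((1 / 2) ^ R) W ≤ σ := by
    intro W hW
    rw [hG, Finset.mem_union] at hW
    rcases hW with hW | hW
    · obtain ⟨q, hq, rfl⟩ := Finset.mem_image.1 hW
      exact (Finset.mem_filter.1 hq).2.2.2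
    · obtain ⟨j, -, rfl⟩ := Finset.mem_image.1 hW
      have hz : Pw w (fun ω => (1 / 2) ^ R < |dp (V ω) (e j) - 0|) = 0 := by
        unfold Pw
        refine Finset.sum_eq_zero fun ω _ => ?_
        by_cases h0 : w ω = 0
        · simp [h0]
        · rw [if_neg]
          have hv := hV ω h0 j
          have hd : dp (V ω) (e j) = V ω j * (1 / 2) ^ R := by
            unfold dp
            rw [Finset.sum_eq_single j]
            · rw [he]
              simp
            · intro i _ hij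
              rw [he]
              simp [hij]
            · intro h
              exact absurd (Finset.mem_univ j) h
          rw [not_lt, sub_zero, hd, abs_mul, abs_of_nonneg hv.1, abs_of_pos pos]
          nlinarith
      exact (naP_le w V _ (e j) 0).trans (hz.le.trans hσ)
  have hbd : ∀ W ∈ 𝒢, ∀ i, |W i| ≤ 1 := by
    intro W hW i
    rw [hG, Finset.mem_union] at hW
    rcases hW with hW | hW
    · obtain ⟨q, hq, rfl⟩ := Finset.mem_image.1 hW
      have h1 := hY q.1 (Finset.mem_filter.1 hq).2.1 i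
      have h2 := hY q.2 (Finset.mem_filter.1 hq).2.2.1 i
      rw [abs_le, Pi.sub_apply]
      constructor <;> linarith [h1.1, h1.2, h2.1, h2.2]
    · obtain ⟨j, -, rfl⟩ := Finset.mem_image.1 hW
      rw [he]
      by_cases hij : i = j
      · subst hij
        simp only [Pi.single_eq_same]
        rw [abs_of_pos pos]
        exact p1
      · simp [hij]
  obtain ⟨W, hW, hmax⟩ := Finset.exists_max_image (Fintype.piFinset (fun _ : Fin p => 𝒢))
    (fun W => |(Matrix.of W).det|) ⟨e, Fintype.mem_piFinset.2 heG⟩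
  rw [Fintype.mem_piFinset] at hW
  have hmax' : ∀ W' : Fin p → Fin p → ℝ, (∀ i, W' i ∈ 𝒢) →
      |(Matrix.of W').det| ≤ |(Matrix.of W).det| :=
    fun W' h => hmax W' (Fintype.mem_piFinset.2 h)
  have hedet : (Matrix.of e).det = ((1 / 2) ^ R) ^ p := by
    have : Matrix.of e = Matrix.diagonal (fun _ : Fin p => ((1 : ℝ) / 2) ^ R) := by
      ext i j
      rw [Matrix.of_apply, he, Matrix.diagonal_apply]
      by_cases hij : i = j
      · subst hij; simp
      · simp [hij, Ne.symm hij]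
    rw [this, Matrix.det_diagonal]
    simp
  have hlo : (1 : ℝ) ≤ 2 ^ (p * R) * |(Matrix.of W).det| := by
    have h1 := hmax' e heG
    rw [hedet, abs_of_pos (by positivity)] at h1
    have h2 : (2 : ℝ) ^ (p * R) * ((1 / 2) ^ R) ^ p = 1 := by
      rw [mul_comm p R, pow_mul, ← mul_pow, hpr, one_pow]
    rw [← h2]
    exact mul_le_mul_of_nonneg_left h1 (by positivity)
  have hdet0 : (Matrix.of W).det ≠ 0 := by
    intro h
    rw [h, abs_zero, mul_zero] at hlo
    linarith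
  set Wm : Matrix (Fin p) (Fin p) ℝ := Matrix.of W with hWm
  set Λ : Matrix (Fin p) (Fin p) ℝ := (Wm.transpose)⁻¹ with hΛ
  have hunit : IsUnit (Wm.transpose).det := by
    rw [Matrix.det_transpose]
    exact isUnit_iff_ne_zero.2 hdet0
  have hdual : Λ * Wm.transpose = 1 := Matrix.nonsing_inv_mul _ hunit
  -- Cramer
  have hcr : ∀ u ∈ 𝒢, ∀ i, |dp (Λ i) u| ≤ 1 := by
    intro u hu i
    have h1 : dp (Λ i) u = (Λ.mulVec u) i := rfl
    have h2 : Λ.mulVec u = (Wm.det)⁻¹ • (Matrix.cramer Wm.transpose u) := by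
      rw [hΛ, Matrix.inv_def, Matrix.smul_mulVec, Matrix.cramer_eq_adjugate_mulVec,
        Matrix.det_transpose, Ring.inverse_eq_inv']
    rw [h1, h2, Pi.smul_apply, Matrix.cramer_apply, smul_eq_mul, abs_mul, abs_inv]
    have h3 : (Wm.transpose.updateCol i u).det = (Wm.updateRow i u).det := by
      rw [Matrix.updateCol_transpose, Matrix.det_transpose]
    have h4 : |(Wm.updateRow i u).det| ≤ |Wm.det| := by
      have h5 := hmax' (Function.update W i u) (by
        intro j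
        by_cases hj : j = i
        · subst hj
          rw [Function.update_self]
          exact hu
        · rw [Function.update_of_ne hj]
          exact hW j)
      have h6 : Matrix.of (Function.update W i u) = Wm.updateRow i u := rfl
      rw [h6] at h5
      exact h5
    rw [h3, inv_mul_le_iff₀ (abs_pos.2 hdet0), mul_one]
    exact h4
  refine ⟨Wm, Λ, hlo, fun i j => hbd (W i) (hW i) j, fun i => hna (W i) (hW i), hdual, ?_, ?_, ?_⟩
  · rw [hΛ, Matrix.det_nonsing_inv, Matrix.det_transpose, Ring.inverse_eq_inv']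
  · intro i j
    have h1 := hcr (e j) (heG j) i
    have h2 : dp (Λ i) (e j) = Λ i j * (1 / 2) ^ R := by
      unfold dp
      rw [Finset.sum_eq_single j]
      · rw [he]; simp
      · intro k _ hkj
        rw [he]; simp [hkj]
      · intro h
        exact absurd (Finset.mem_univ j) h
    rw [h2, abs_mul, abs_of_pos pos] at h1
    have h3 := mul_le_mul_of_nonneg_left h1 (show (0 : ℝ) ≤ 2 ^ R by positivity)
    have h4 : (2 : ℝ) ^ R * (|Λ i j| * (1 / 2) ^ R) = |Λ i j| := by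
      rw [mul_comm (|Λ i j|), ← mul_assoc, hpr, one_mul]
    rw [h4, mul_one] at h3
    exact h3
  · intro ω1 ω2 g1 g2 g3 i
    refine hcr _ ?_ i
    rw [hG, Finset.mem_union]
    left
    exact Finset.mem_image.2 ⟨(ω1, ω2), Finset.mem_filter.2 ⟨Finset.mem_univ _, g1, g2, g3⟩, rfl⟩

/-- the constant -/
noncomputable def cP (p : ℕ) : ℝ := (2 * (1 + 2 * p)) ^ p

theorem cP_one (p : ℕ) : 1 ≤ cP p := by
  unfold cP
  refine one_le_pow₀ ?_
  have : (0 : ℝ) ≤ p := Nat.cast_nonneg p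
  linarith

theorem det_le_of_entries (W : Matrix (Fin p) (Fin p) ℝ) (h : ∀ i j, |W i j| ≤ 1) :
    |W.det| ≤ (p.factorial : ℝ) := by
  rw [Matrix.det_apply]
  refine (Finset.abs_sum_le_sum_abs _ _).trans ?_
  have h1 : ∀ σ ∈ (univ : Finset (Equiv.Perm (Fin p))),
      |Equiv.Perm.sign σ • ∏ i, W (σ i) i| ≤ 1 := by
    intro σ _
    have h2 : |∏ i, W (σ i) i| ≤ 1 := by
      rw [Finset.abs_prod]
      exact Finset.prod_le_one (fun i _ => abs_nonneg _) (fun i _ => h _ _)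
    rcases Int.units_eq_one_or (Equiv.Perm.sign σ) with h3 | h3
    · rw [h3, one_smul]
      exact h2
    · rw [h3]
      simp only [Units.neg_smul, one_smul, abs_neg]
      exact h2
  refine (Finset.sum_le_sum h1).trans ?_
  simp [Finset.card_univ, Fintype.card_perm, Fintype.card_fin]

/-- entropy of `V` -/
theorem coreP_V (w : Ω → ℝ) (hw : ∀ ω, 0 ≤ w ω) (hm : ∑ ω, w ω = 1) (V : Ω → Fin p → ℝ)
    (hV : ∀ ω, w ω ≠ 0 → ∀ i, 0 ≤ V ω i ∧ V ω i < 1) (w' : Ω' → ℝ) (Y : Ω' → Fin p → ℝ) (R : ℕ)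
    {σ : ℝ} {W Λ : Matrix (Fin p) (Fin p) ℝ} (hC : CoreP w V w' Y R σ W Λ) :
    Hh w (fun ω => cel R (V ω)) ≤
      1 + Real.logb 2 (cP p * p.factorial / |W.det|) + p * σ * (p * R) := by
  classical
  have hpr : (2 : ℝ) ^ R * (1 / 2) ^ R = 1 := by rw [← mul_pow]; norm_num
  have hD0 : 0 < |W.det| := by
    by_contra h
    have h1 : |W.det| = 0 := le_antisymm (not_lt.1 h) (abs_nonneg _)
    have := hC.lo
    rw [h1, mul_zero] at this
    linarith
  choose c hc1 hc2 using fun i => naP_attained w V ((1 / 2) ^ R) (W i)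
  have hcP := cP_one p
  have hf1 : (1 : ℝ) ≤ p.factorial := by exact_mod_cast Nat.one_le_iff_ne_zero.2 (Nat.factorial_ne_zero p)
  have hdl := det_le_of_entries W hC.hi
  have h := Hh_mat w hw hm R V hV W (abs_pos.1 hD0) c (fun _ => (1 / 2) ^ R) (fun _ => (p : ℝ))
    (fun _ => by positivity) (by
      intro i
      calc ∑ j, |W i j| ≤ ∑ j : Fin p, (1 : ℝ) := Finset.sum_le_sum fun j _ => hC.hi i j
        _ = p := by simp) (N := cP p * p.factorial / |W.det|) (δ := p * σ)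
    (fun ω => ∀ i, |dp (W i) (V ω) - c i| ≤ (1 / 2) ^ R) (fun ω _ h => h) (by
      have h1 : ∀ i, Pw w (fun ω => (1 / 2) ^ R < |dp (V ω) (W i) - c i|) ≤ σ := by
        intro i
        rw [← hc2 i]
        exact hC.at' i
      have h2 : Pw w (fun ω => ¬ ∀ i, |dp (W i) (V ω) - c i| ≤ (1 / 2) ^ R) ≤
          ∑ i, Pw w (fun ω => (1 / 2) ^ R < |dp (V ω) (W i) - c i|) := by
        refine (Pw_mono w hw ?_).trans
          (Pw_exi w hw (fun i ω => (1 / 2) ^ R < |dp (V ω) (W i) - c i|))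
        intro ω _ h3
        obtain ⟨i, hi⟩ := not_forall.1 h3
        refine ⟨i, ?_⟩
        rw [dp_comm]
        exact not_le.1 hi
      refine h2.trans ((Finset.sum_le_sum fun i _ => h1 i).trans (le_of_eq ?_))
      simp) (by
      rw [le_div_iff₀ hD0, one_mul]
      calc |W.det| ≤ p.factorial := hdl
        _ ≤ cP p * p.factorial := le_mul_of_one_le_left (by positivity) hcP) (by
      refine div_le_div_of_nonneg_right ?_ hD0.le
      simp only [hpr]
      rw [Finset.prod_const, Finset.card_univ, Fintype.card_fin]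
      exact le_mul_of_one_le_right (by unfold cP at hcP; linarith) hf1)
  refine h.trans (le_of_eq ?_)
  ring

/-- entropy of `Y` -/
theorem coreP_Y (w : Ω → ℝ) (V : Ω → Fin p → ℝ) (w' : Ω' → ℝ) (hw' : ∀ ω, 0 ≤ w' ω)
    (hm' : ∑ ω, w' ω = 1) (Y : Ω' → Fin p → ℝ)
    (hY : ∀ ω, w' ω ≠ 0 → ∀ i, 0 ≤ Y ω i ∧ Y ω i < 1) (R : ℕ)
    {σ : ℝ} {W Λ : Matrix (Fin p) (Fin p) ℝ} (hC : CoreP w V w' Y R σ W Λ) (ω2 : Ω')
    (h0 : w' ω2 ≠ 0)
    (h2 : Pw w' (fun ω1 => σ < naP w V ((1 / 2) ^ R) (Y ω1 - Y ω2)) ≤ σ) :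
    Hh w' (fun ω => cel R (Y ω)) ≤
      1 + Real.logb 2 (cP p * (2 ^ (p * R) * |W.det|)) + σ * (p * R) := by
  classical
  have hD0 : 0 < |W.det| := by
    by_contra h
    have h1 : |W.det| = 0 := le_antisymm (not_lt.1 h) (abs_nonneg _)
    have := hC.lo
    rw [h1, mul_zero] at this
    linarith
  have pp : (0 : ℝ) < 2 ^ R := by positivity
  have hcP := cP_one p
  have hΛ : |Λ.det| = |W.det|⁻¹ := by rw [hC.det, abs_inv]
  have h := Hh_mat w' hw' hm' R Y hY Λ (by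
      rw [hC.det]
      exact inv_ne_zero (abs_pos.1 hD0)) (fun i => dp (Λ i) (Y ω2)) (fun _ => 1)
    (fun _ => (p : ℝ) * 2 ^ R) (fun _ => zero_le_one) (by
      intro i
      calc ∑ j, |Λ i j| ≤ ∑ j : Fin p, (2 : ℝ) ^ R := Finset.sum_le_sum fun j _ => hC.sz i j
        _ = p * 2 ^ R := by simp) (N := cP p * (2 ^ (p * R) * |W.det|)) (δ := σ)
    (fun ω => ¬ σ < naP w V ((1 / 2) ^ R) (Y ω - Y ω2)) (by
      intro ω hω h3 i
      have h4 := hC.mx ω ω2 hω h0 (not_lt.1 h3) i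
      have h5 : dp (Λ i) (Y ω) - dp (Λ i) (Y ω2) = dp (Λ i) (Y ω - Y ω2) := by
        unfold dp
        rw [← Finset.sum_sub_distrib]
        exact Finset.sum_congr rfl fun j _ => by simp only [Pi.sub_apply]; ring
      rw [h5]
      exact h4) (by
      refine (Pw_mono w' hw' ?_).trans h2
      intro ω _ h3
      exact not_not.1 h3) (by
      calc (1 : ℝ) ≤ 2 ^ (p * R) * |W.det| := hC.lo
        _ ≤ cP p * (2 ^ (p * R) * |W.det|) := le_mul_of_one_le_left (by positivity) hcP) (by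
      rw [hΛ, Finset.prod_const, Finset.card_univ, Fintype.card_fin, div_inv_eq_mul]
      have e : (2 * ((2 : ℝ) ^ R * 1 + 2 * (p * 2 ^ R))) ^ p = cP p * 2 ^ (p * R) := by
        unfold cP
        rw [show (2 : ℝ) * (2 ^ R * 1 + 2 * (p * 2 ^ R)) = (2 * (1 + 2 * p)) * 2 ^ R by ring,
          mul_pow, ← pow_mul, mul_comm R p]
      rw [e, mul_assoc])
  exact h

/-- the averaged non-atomicity of a pair of laws -/
noncomputable def nasP (w : Ω → ℝ) (V : Ω → Fin p → ℝ) (w' : Ω' → ℝ) (Y : Ω' → Fin p → ℝ) (R : ℕ) : ℝ :=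
  ∑ ω1, w' ω1 * ∑ ω2, w' ω2 * naP w V ((1 / 2) ^ R) (Y ω1 - Y ω2)

/-- Fubini and Markov -/
theorem good_secondP (w : Ω → ℝ) (hw : ∀ ω, 0 ≤ w ω) (V : Ω → Fin p → ℝ) (w' : Ω' → ℝ)
    (hw' : ∀ ω, 0 ≤ w' ω) (hm' : ∑ ω, w' ω = 1) (Y : Ω' → Fin p → ℝ) (R : ℕ) {σ : ℝ} (hσ : 0 < σ)
    (hs : nasP w V w' Y R ≤ σ ^ 2) :
    ∃ ω2, w' ω2 ≠ 0 ∧ Pw w' (fun ω1 => σ < naP w V ((1 / 2) ^ R) (Y ω1 - Y ω2)) ≤ σ := by
  classical
  set P : Ω' → ℝ := fun ω2 => Pw w' (fun ω1 => σ < naP w V ((1 / 2) ^ R) (Y ω1 - Y ω2)) with hP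
  have h1 : ∑ ω2, w' ω2 * P ω2 ≤ σ := by
    have h2 : ∀ ω2, P ω2 ≤ (∑ ω1, w' ω1 * naP w V ((1 / 2) ^ R) (Y ω1 - Y ω2)) / σ := by
      intro ω2
      exact Pw_markov w' hw' _ (fun ω1 _ => naP_nonneg w hw V _ _) hσ le_rfl
    calc ∑ ω2, w' ω2 * P ω2
        ≤ ∑ ω2, w' ω2 * ((∑ ω1, w' ω1 * naP w V ((1 / 2) ^ R) (Y ω1 - Y ω2)) / σ) :=
          Finset.sum_le_sum fun ω2 _ => mul_le_mul_of_nonneg_left (h2 ω2) (hw' ω2)
      _ = nasP w V w' Y R / σ := by
          unfold nasP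
          rw [Finset.sum_div]
          simp only [Finset.mul_sum, Finset.sum_div]
          rw [Finset.sum_comm]
          refine Finset.sum_congr rfl fun ω1 _ => Finset.sum_congr rfl fun ω2 _ => ?_
          ring
      _ ≤ σ ^ 2 / σ := div_le_div_of_nonneg_right hs hσ.le
      _ = σ := by rw [sq, mul_div_assoc, div_self hσ.ne', mul_one]
  by_contra hc
  push Not at hc
  have h3 : σ < ∑ ω2, w' ω2 * P ω2 := by
    have h4 : ∑ ω2, w' ω2 * σ < ∑ ω2, w' ω2 * P ω2 := by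
      have hex : ∃ ω ∈ (univ : Finset Ω'), w' ω ≠ 0 := by
        by_contra h5
        push Not at h5
        rw [Finset.sum_eq_zero h5] at hm'
        exact zero_ne_one hm'
      obtain ⟨ω0, h6, h7⟩ := hex
      refine Finset.sum_lt_sum (fun ω _ => ?_) ⟨ω0, h6, ?_⟩
      · by_cases h8 : w' ω = 0
        · simp [h8]
        · exact mul_le_mul_of_nonneg_left (hc ω h8).le (hw' ω)
      · exact mul_lt_mul_of_pos_left (hc ω0 h7) (lt_of_le_of_ne (hw' ω0) (Ne.symm h7))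
    rw [← Finset.sum_mul, hm', one_mul] at h4
    exact h4
  linarith

/-- **the strip lemma** in dimension `p` -/
theorem stripP (w : Ω → ℝ) (hw : ∀ ω, 0 ≤ w ω) (hm : ∑ ω, w ω = 1) (V : Ω → Fin p → ℝ)
    (hV : ∀ ω, w ω ≠ 0 → ∀ i, 0 ≤ V ω i ∧ V ω i < 1) (w' : Ω' → ℝ) (hw' : ∀ ω, 0 ≤ w' ω)
    (hm' : ∑ ω, w' ω = 1) (Y : Ω' → Fin p → ℝ)
    (hY : ∀ ω, w' ω ≠ 0 → ∀ i, 0 ≤ Y ω i ∧ Y ω i < 1) (R : ℕ) {σ : ℝ} (hσ : 0 < σ)
    (hs : nasP w V w' Y R ≤ σ ^ 2) :
    Hh w (fun ω => cel R (V ω)) + Hh w' (fun ω => cel R (Y ω)) ≤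
      p * R + (2 + Real.logb 2 (cP p * cP p * p.factorial)) + (p + 1) * σ * (p * R) := by
  obtain ⟨W, Λ, hC⟩ := coreP_exists w V hV w' Y hY R hσ.le
  obtain ⟨ω2, h0, h2⟩ := good_secondP w hw V w' hw' hm' Y R hσ hs
  have hD0 : 0 < |W.det| := by
    by_contra h
    have h1 : |W.det| = 0 := le_antisymm (not_lt.1 h) (abs_nonneg _)
    have := hC.lo
    rw [h1, mul_zero] at this
    linarith
  have h3 := coreP_V w hw hm V hV w' Y R hC
  have h4 := coreP_Y w V w' hw' hm' Y hY R hC ω2 h0 h2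
  have hcP := cP_one p
  have hf1 : (0 : ℝ) < p.factorial := by exact_mod_cast Nat.factorial_pos p
  have e1 : Real.logb 2 (cP p * p.factorial / |W.det|) =
      Real.logb 2 (cP p) + Real.logb 2 p.factorial - Real.logb 2 |W.det| := by
    rw [Real.logb_div (by positivity) hD0.ne', Real.logb_mul (by linarith) hf1.ne']
  have e2 : Real.logb 2 (cP p * (2 ^ (p * R) * |W.det|)) =
      Real.logb 2 (cP p) + (p * R + Real.logb 2 |W.det|) := by
    rw [Real.logb_mul (by linarith) (by positivity), Real.logb_mul (by positivity) hD0.ne',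
      logb_two_pow]
    push_cast
    ring
  have e3 : Real.logb 2 (cP p * cP p * p.factorial) =
      Real.logb 2 (cP p) + Real.logb 2 (cP p) + Real.logb 2 p.factorial := by
    rw [Real.logb_mul (by positivity) hf1.ne', Real.logb_mul (by linarith) (by linarith)]
  rw [e1] at h3
  rw [e2] at h4
  rw [e3]
  linarith

end Pool.Agent.Helper46.WF
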